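import Pool.Agent.MP_2d5e52_al.RingGood

namespace Pool.Agent.MP_2d5e52_al

open MvPolynomial

variable (k : Type) [Field k]

/-- A ring map out of `R0`. -/
noncomputable def liftR0 {D : Type} [CommRing D] [Algebra k D] (a : Fin 5 → D)
    (h1 : a 0 * a 1 - a 2 * a 3 = 0) (h2 : a 0 * a 4 = 0) (h3 : a 3 * a 4 = 0) : R0 k →+* D :=
  Ideal.Quotient.lift (J k) ((aeval a : S k →ₐ[k] D) : S k →+* D) (by
    intro s hs
    have : J k ≤ RingHom.ker (aeval a : S k →ₐ[k] D) := by
      rw [J, Ideal.span_le]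
      rintro s (rfl | rfl | rfl) <;> simp [RingHom.mem_ker, h1, h2, h3]
    exact this hs)

theorem liftR0_mk {D : Type} [CommRing D] [Algebra k D] (a : Fin 5 → D)
    (h1 : a 0 * a 1 - a 2 * a 3 = 0) (h2 : a 0 * a 4 = 0) (h3 : a 3 * a 4 = 0) (s : S k) :
    liftR0 k a h1 h2 h3 (Ideal.Quotient.mk (J k) s) = aeval a s := rfl

/-- evaluation at the origin -/
noncomputable def ev0 : R0 k →+* k := liftR0 k (fun _ => 0) (by simp) (by simp) (by simp)

/-- the maximal ideal of the origin -/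
noncomputable def m0 : Ideal (R0 k) := RingHom.ker (ev0 k)

instance : (m0 k).IsPrime := RingHom.ker_isPrime _

/-- The local ring `R`, the localization of `k[x,y,u,v,z]/(xy - uv, xz, vz)` at the origin. -/
def Rk : Type := Localization.AtPrime (m0 k)

noncomputable instance : CommRing (Rk k) :=
  inferInstanceAs (CommRing (Localization.AtPrime (m0 k)))
noncomputable instance : Algebra (R0 k) (Rk k) :=
  inferInstanceAs (Algebra (R0 k) (Localization.AtPrime (m0 k)))
instance : IsLocalization.AtPrime (Rk k) (m0 k) :=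
  inferInstanceAs (IsLocalization.AtPrime (Localization.AtPrime (m0 k)) (m0 k))
instance : IsLocalRing (Rk k) := IsLocalization.AtPrime.isLocalRing (Rk k) (m0 k)
instance : IsNoetherianRing (Rk k) :=
  IsLocalization.isNoetherianRing (m0 k).primeCompl (Rk k) inferInstance

/-- The five elements `x, y, u, v, z` of `R`. -/
noncomputable def el (i : Fin 5) : Rk k :=
  algebraMap (R0 k) (Rk k) (Ideal.Quotient.mk (J k) (X i))

/-- An ideal containing the five variables contains the maximal ideal. -/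
theorem maximalIdeal_le (p : Ideal (Rk k)) (h : ∀ i, el k i ∈ p) :
    IsLocalRing.maximalIdeal (Rk k) ≤ p := by
  rw [← IsLocalization.AtPrime.map_eq_maximalIdeal (m0 k) (Rk k), Ideal.map_le_iff_le_comap]
  intro a ha
  obtain ⟨s, rfl⟩ := Ideal.Quotient.mk_surjective a
  rw [Ideal.mem_comap]
  refine Ideal.Quotient.eq_zero_iff_mem.mp ?_
  have h0 : aeval (fun _ => (0 : k)) s = (0 : k) := ha
  let f : S k →+* (Rk k ⧸ p) :=
    (Ideal.Quotient.mk p).comp ((algebraMap (R0 k) (Rk k)).comp (Ideal.Quotient.mk (J k)))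
  have h1 : f = (f.comp (C : k →+* S k)).comp
      (aeval (fun _ => (0 : k)) : S k →ₐ[k] k).toRingHom := by
    apply MvPolynomial.ringHom_ext
    · intro r
      simp
    · intro i
      simp only [AlgHom.toRingHom_eq_coe, RingHom.comp_apply, RingHom.coe_coe, aeval_X, map_zero]
      exact Ideal.Quotient.eq_zero_iff_mem.mpr (h i)
  have h2 := RingHom.congr_fun h1 s
  rw [RingHom.comp_apply] at h2
  change f s = (f.comp C) (aeval (fun _ => (0 : k)) s) at h2
  rw [h0, map_zero] at h2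
  exact h2

/-- relations between the five elements -/
theorem el_rel1 : el k 0 * el k 1 = el k 2 * el k 3 := by
  rw [el, el, el, el, ← map_mul, ← map_mul, ← map_mul, ← map_mul]
  congr 1
  rw [Ideal.Quotient.eq]
  exact Ideal.subset_span (by simp)

theorem el_rel2 : el k 0 * el k 4 = 0 := by
  rw [el, el, ← map_mul, ← map_mul, Ideal.Quotient.eq_zero_iff_mem.mpr, map_zero]
  exact Ideal.subset_span (by simp)

theorem el_rel3 : el k 3 * el k 4 = 0 := by
  rw [el, el, ← map_mul, ← map_mul, Ideal.Quotient.eq_zero_iff_mem.mpr, map_zero]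
  exact Ideal.subset_span (by simp)

theorem el_mem (i : Fin 5) : el k i ∈ IsLocalRing.maximalIdeal (Rk k) := by
  rw [← IsLocalization.AtPrime.map_eq_maximalIdeal (m0 k) (Rk k)]
  apply Ideal.mem_map_of_mem
  rw [m0, RingHom.mem_ker, ev0, liftR0_mk]
  simp

theorem el_ind (p : Ideal (Rk k)) (h0 : el k 0 ∈ p) (h1 : el k 1 ∈ p) (h2 : el k 2 ∈ p)
    (h3 : el k 3 ∈ p) (h4 : el k 4 ∈ p) : ∀ i, el k i ∈ p := by
  intro i
  fin_cases i
  exacts [h0, h1, h2, h3, h4]

theorem dim_le : ringKrullDim (Rk k) ≤ 3 := by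
  classical
  let s : Finset (Rk k) := {el k 1 - el k 0, el k 2, el k 3 + el k 4}
  have hs : s.card ≤ 3 := Finset.card_le_three
  have hmin : IsLocalRing.maximalIdeal (Rk k) ∈ (Ideal.span (s : Set (Rk k))).minimalPrimes := by
    refine ⟨⟨inferInstance, ?_⟩, ?_⟩
    · rw [Ideal.span_le]
      intro a ha
      simp only [s, Finset.coe_insert, Finset.coe_singleton, Set.mem_insert_iff,
        Set.mem_singleton_iff] at ha
      rcases ha with rfl | rfl | rfl
      · exact Ideal.sub_mem _ (el_mem k 1) (el_mem k 0)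
      · exact el_mem k 2
      · exact Ideal.add_mem _ (el_mem k 3) (el_mem k 4)
    · rintro q ⟨hq, hq'⟩ -
      rw [Ideal.span_le] at hq'
      have a1 : el k 1 - el k 0 ∈ q := hq' (by simp [s])
      have a2 : el k 2 ∈ q := hq' (by simp [s])
      have a3 : el k 3 + el k 4 ∈ q := hq' (by simp [s])
      have b0 : el k 0 ∈ q := by
        have : el k 0 * el k 0 ∈ q := by
          have e : el k 0 * el k 0 = -(el k 0 * (el k 1 - el k 0)) + el k 2 * el k 3 := by
            rw [← el_rel1]; ring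
          rw [e]
          exact Ideal.add_mem _ (neg_mem (Ideal.mul_mem_left _ _ a1)) (Ideal.mul_mem_right _ _ a2)
        exact (hq.mem_or_mem this).elim id id
      have b1 : el k 1 ∈ q := by
        have := Ideal.add_mem _ a1 b0
        rwa [sub_add_cancel] at this
      have b3 : el k 3 ∈ q := by
        have : el k 3 * el k 3 ∈ q := by
          have e : el k 3 * el k 3 = el k 3 * (el k 3 + el k 4) := by
            rw [mul_add, el_rel3, add_zero]
          rw [e]
          exact Ideal.mul_mem_left _ _ a3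
        exact (hq.mem_or_mem this).elim id id
      have b4 : el k 4 ∈ q := by
        have := Ideal.sub_mem _ a3 b3
        rwa [add_sub_cancel_left] at this
      exact maximalIdeal_le k q (el_ind k q b0 b1 a2 b3 b4)
  have h := Ideal.height_le_card_of_mem_minimalPrimes_span_finset hmin
  rw [← IsLocalRing.maximalIdeal_height_eq_ringKrullDim]
  have h2 : (IsLocalRing.maximalIdeal (Rk k)).height ≤ 3 := h.trans (by exact_mod_cast hs)
  exact WithBot.coe_le_coe.mpr h2

/-- Primes of `R` from primes of `R0`. -/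
theorem exists_prime (P : Ideal (R0 k)) (hP : P.IsPrime) (h : P ≤ m0 k) :
    ∃ Q : PrimeSpectrum (Rk k), Q.asIdeal.comap (algebraMap (R0 k) (Rk k)) = P := by
  have hd : Disjoint ((m0 k).primeCompl : Set (R0 k)) (P : Set (R0 k)) := by
    rw [Set.disjoint_left]
    intro a ha haP
    exact ha (h haP)
  refine ⟨⟨_, IsLocalization.isPrime_of_isPrime_disjoint (m0 k).primeCompl (Rk k) P hP hd⟩, ?_⟩
  exact IsLocalization.under_map_of_isPrime_disjoint (m0 k).primeCompl (Rk k) hP hd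

theorem prime_lt (Q1 Q2 : PrimeSpectrum (Rk k))
    (h : Q1.asIdeal.comap (algebraMap (R0 k) (Rk k)) < Q2.asIdeal.comap (algebraMap (R0 k) (Rk k))) :
    Q1 < Q2 := by
  exact ((IsLocalization.orderEmbedding (m0 k).primeCompl (Rk k)).lt_iff_lt
    (a := Q1.asIdeal) (b := Q2.asIdeal)).mp h

/-- The polynomial ring in `t, y, v`. -/
abbrev D3 : Type := MvPolynomial (Fin 3) k

/-- `x ↦ tv, y ↦ y, u ↦ ty, v ↦ v, z ↦ 0` -/
noncomputable def phi0 : R0 k →+* D3 k :=
  liftR0 k ![X 0 * X 2, X 1, X 0 * X 1, X 2, 0] (by simp; ring) (by simp) (by simp)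

/-- `x ↦ 0, y ↦ y, u ↦ ty, v ↦ 0, z ↦ 0` -/
noncomputable def phi1 : R0 k →+* D3 k :=
  liftR0 k ![0, X 1, X 0 * X 1, 0, 0] (by simp) (by simp) (by simp)

/-- `x ↦ 0, y ↦ y, u ↦ 0, v ↦ 0, z ↦ 0` -/
noncomputable def phi2 : R0 k →+* D3 k :=
  liftR0 k ![0, X 1, 0, 0, 0] (by simp) (by simp) (by simp)

theorem ker_le_of_comp {D D' : Type} [CommRing D] [Algebra k D] [CommRing D'] [Algebra k D']
    (a : Fin 5 → D) (h1 : a 0 * a 1 - a 2 * a 3 = 0) (h2 : a 0 * a 4 = 0) (h3 : a 3 * a 4 = 0)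
    (a' : Fin 5 → D') (h1' : a' 0 * a' 1 - a' 2 * a' 3 = 0) (h2' : a' 0 * a' 4 = 0)
    (h3' : a' 3 * a' 4 = 0) (f : D →ₐ[k] D') (hf : ∀ i, f (a i) = a' i) :
    RingHom.ker (liftR0 k a h1 h2 h3) ≤ RingHom.ker (liftR0 k a' h1' h2' h3') := by
  intro r hr
  obtain ⟨s, rfl⟩ := Ideal.Quotient.mk_surjective r
  rw [RingHom.mem_ker, liftR0_mk] at hr ⊢
  have : (aeval a' : S k →ₐ[k] D') = f.comp (aeval a) := by
    apply MvPolynomial.algHom_ext
    intro i
    simp [hf]
  rw [this, AlgHom.comp_apply, hr, map_zero]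

theorem ker01 : RingHom.ker (phi0 k) ≤ RingHom.ker (phi1 k) :=
  ker_le_of_comp k _ _ _ _ _ _ _ _ (aeval ![X 0, X 1, 0]) (by
    intro i; fin_cases i <;> simp)

theorem ker12 : RingHom.ker (phi1 k) ≤ RingHom.ker (phi2 k) :=
  ker_le_of_comp k _ _ _ _ _ _ _ _ (aeval ![0, X 1, X 2]) (by
    intro i; fin_cases i <;> simp)

theorem ker23 : RingHom.ker (phi2 k) ≤ m0 k :=
  ker_le_of_comp k _ _ _ _ _ _ _ _ (aeval ![0, 0, 0]) (by
    intro i; fin_cases i <;> simp)

theorem lt01 : RingHom.ker (phi0 k) < RingHom.ker (phi1 k) := by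
  refine lt_of_le_of_ne (ker01 k) fun h => ?_
  have h1 : Ideal.Quotient.mk (J k) (X 3) ∈ RingHom.ker (phi1 k) := by
    rw [RingHom.mem_ker, phi1, liftR0_mk]; simp
  rw [← h, RingHom.mem_ker, phi0, liftR0_mk] at h1
  simp at h1

theorem lt12 : RingHom.ker (phi1 k) < RingHom.ker (phi2 k) := by
  refine lt_of_le_of_ne (ker12 k) fun h => ?_
  have h1 : Ideal.Quotient.mk (J k) (X 2) ∈ RingHom.ker (phi2 k) := by
    rw [RingHom.mem_ker, phi2, liftR0_mk]; simp
  rw [← h, RingHom.mem_ker, phi1, liftR0_mk] at h1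
  simp at h1

theorem lt23 : RingHom.ker (phi2 k) < m0 k := by
  refine lt_of_le_of_ne (ker23 k) fun h => ?_
  have h1 : Ideal.Quotient.mk (J k) (X 1) ∈ m0 k := by
    rw [m0, RingHom.mem_ker, ev0, liftR0_mk]; simp
  rw [← h, RingHom.mem_ker, phi2, liftR0_mk] at h1
  simp at h1

theorem mem_support_quot {A : Type} [CommRing A] (I : Ideal A) (Q : PrimeSpectrum A)
    (h : I ≤ Q.asIdeal) : Q ∈ Module.support A (A ⧸ I) := by
  rw [Module.mem_support_iff']
  refine ⟨1, fun r hr h0 => hr (h ?_)⟩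
  rw [Algebra.smul_def, mul_one] at h0
  exact Ideal.Quotient.eq_zero_iff_mem.mp h0

theorem three_le_dim_M : 3 ≤ Module.supportDim (Rk k) (Rk k ⧸ Ideal.span {el k 4}) := by
  obtain ⟨Q0, hQ0⟩ := exists_prime k (RingHom.ker (phi0 k)) (RingHom.ker_isPrime _)
    ((ker01 k).trans ((ker12 k).trans (ker23 k)))
  obtain ⟨Q1, hQ1⟩ := exists_prime k (RingHom.ker (phi1 k)) (RingHom.ker_isPrime _)
    ((ker12 k).trans (ker23 k))
  obtain ⟨Q2, hQ2⟩ := exists_prime k (RingHom.ker (phi2 k)) (RingHom.ker_isPrime _) (ker23 k)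
  obtain ⟨Q3, hQ3⟩ := exists_prime k (m0 k) inferInstance le_rfl
  have l01 : Q0 < Q1 := prime_lt k _ _ (by rw [hQ0, hQ1]; exact lt01 k)
  have l12 : Q1 < Q2 := prime_lt k _ _ (by rw [hQ1, hQ2]; exact lt12 k)
  have l23 : Q2 < Q3 := prime_lt k _ _ (by rw [hQ2, hQ3]; exact lt23 k)
  have z0 : Ideal.span {el k 4} ≤ Q0.asIdeal := by
    rw [Ideal.span_singleton_le_iff_mem]
    have : Ideal.Quotient.mk (J k) (X 4) ∈ RingHom.ker (phi0 k) := by
      rw [RingHom.mem_ker, phi0, liftR0_mk]; simp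
    rw [← hQ0] at this
    exact this
  have m0' := mem_support_quot _ Q0 z0
  have m1 := mem_support_quot _ Q1 (z0.trans l01.le)
  have m2 := mem_support_quot _ Q2 (z0.trans (l01.le.trans l12.le))
  have m3 := mem_support_quot _ Q3 (z0.trans (l01.le.trans (l12.le.trans l23.le)))
  rw [Module.supportDim]
  rw [show (3 : WithBot ℕ∞) = ((3 : ℕ) : WithBot ℕ∞) from rfl, Order.le_krullDim_iff]
  refine ⟨⟨3, ![⟨Q0, m0'⟩, ⟨Q1, m1⟩, ⟨Q2, m2⟩, ⟨Q3, m3⟩], ?_⟩, rfl⟩
  intro i
  fin_cases i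
  · exact l01
  · exact l12
  · exact l23

end Pool.Agent.MP_2d5e52_al
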