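import Pool.Agent.MP_2d5e52_al.EModule

namespace Pool.Agent.MP_2d5e52_al

variable (k : Type) [Field k]

theorem mk_zero_mem (f : Polynomial k) :
    (E.mk 0 f : E k) ∈ Submodule.span (R0 k)
      ({E.mk 0 1} ∪ Set.range (fun b : B => (E.mk (Pi.single b 1) 0 : E k))) := by
  induction f using Polynomial.induction_on' with
  | add p q hp hq =>
    have : (E.mk 0 (p + q) : E k) = E.mk 0 p + E.mk 0 q := by
      apply E.ext' <;> simp
    rw [this]
    exact Submodule.add_mem _ hp hq
  | monomial n a =>
    induction n with
    | zero =>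
      have : (E.mk 0 (Polynomial.monomial 0 a) : E k) =
          Ideal.Quotient.mk (J k) (MvPolynomial.C a) • E.mk 0 1 := by
        rw [smul_C]
        apply E.ext'
        · simp
        · simp [Polynomial.smul_eq_C_mul]
      rw [this]
      exact Submodule.smul_mem _ _ (Submodule.subset_span (by simp))
    | succ n ih =>
      have : (E.mk 0 (Polynomial.monomial (n + 1) a) : E k) =
          Ideal.Quotient.mk (J k) (MvPolynomial.X 4) • E.mk 0 (Polynomial.monomial n a) := by
        rw [smul_z]
        apply E.ext'
        · intro i; cases i <;> simp [fz]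
        · simp [Polynomial.X_mul_monomial]
      rw [this]
      exact Submodule.smul_mem _ _ ih

/-- coordinate as an additive map -/
def coordHom (i : B) : E k →+ k := ⟨⟨fun e => e.1 i, rfl⟩, fun _ _ => rfl⟩

/-- second component as an additive map -/
def sndHom : E k →+ Polynomial k := ⟨⟨fun e => e.2, rfl⟩, fun _ _ => rfl⟩

theorem mk_fst_mem (w : B → k) :
    (E.mk w 0 : E k) ∈ Submodule.span (R0 k)
      ({E.mk 0 1} ∪ Set.range (fun b : B => (E.mk (Pi.single b 1) 0 : E k))) := by
  have : (E.mk w 0 : E k) = ∑ b : B, Ideal.Quotient.mk (J k) (MvPolynomial.C (w b)) •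
      E.mk (Pi.single b 1) 0 := by
    simp only [smul_C]
    apply E.ext'
    · intro i
      have h := map_sum (coordHom k i) (fun b : B => w b • (E.mk (Pi.single b 1) 0 : E k))
        Finset.univ
      refine Eq.trans ?_ h.symm
      change w i = ∑ b : B, w b * (Pi.single b 1 : B → k) i
      simp [Pi.single_apply]
    · have h := map_sum (sndHom k) (fun b : B => w b • (E.mk (Pi.single b 1) 0 : E k))
        Finset.univ
      refine Eq.trans ?_ h.symm
      change (0 : Polynomial k) = ∑ b : B, w b • (0 : Polynomial k)
      simp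
  rw [this]
  exact Submodule.sum_mem _ fun b _ => Submodule.smul_mem _ _ (Submodule.subset_span (by simp))

instance : Module.Finite (R0 k) (E k) := by
  refine ⟨?_⟩
  rw [Submodule.fg_def]
  refine ⟨{E.mk 0 1} ∪ Set.range (fun b : B => (E.mk (Pi.single b 1) 0 : E k)),
    Set.toFinite _, ?_⟩
  rw [eq_top_iff]
  intro e _
  have : e = E.mk 0 e.2 + E.mk e.1 0 := by
    apply E.ext' <;> simp
  rw [this]
  exact Submodule.add_mem _ (mk_zero_mem k _) (mk_fst_mem k _)

end Pool.Agent.MP_2d5e52_al
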