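import Pool.Agent.MP_2d5e52_al.Espace

namespace Pool.Agent.MP_2d5e52_al

open Polynomial

variable {k : Type} [Field k]

/-- All coordinates outside of `z E` vanish. -/
structure LZ (e : E k) : Prop where
  s1 : e.2.coeff 0 = 0
  r1 : e.1 .r1 = 0
  r2 : e.1 .r2 = 0
  s2 : e.1 .s2 = 0
  us2 : e.1 .us2 = 0
  vs1 : e.1 .vs1 = 0
  vs2 : e.1 .vs2 = 0
  xr2 : e.1 .xr2 = 0
  xr1 : e.1 .xr1 = 0
  xs1 : e.1 .xs1 = 0
  xs2 : e.1 .xs2 = 0
  xvs1 : e.1 .xvs1 = 0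
  xxr1 : e.1 .xxr1 = 0
  xxs2 : e.1 .xxs2 = 0
  xxr2 : e.1 .xxr2 = 0

/-- division by `z` -/
def dzf (w : B → k) : B → k
  | .r1 => w .zr1
  | .zr1 => w .zzr1
  | .r2 => w .zr2
  | .zr2 => w .zzr2
  | .s2 => w .zs2
  | .zs2 => w .zzs2
  | .us2 => w .zus2
  | _ => 0

theorem LZ.exists {e : E k} (h : LZ e) : ∃ s, e = gz s := by
  refine ⟨E.mk (dzf e.1) (divX e.2), ?_⟩
  apply E.ext'
  · intro i; cases i <;>
      simp [fz, dzf, h.r1, h.r2, h.s2, h.us2, h.vs1, h.vs2, h.xr2, h.xr1, h.xs1, h.xs2, h.xvs1,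
        h.xxr1, h.xxs2, h.xxr2]
  · have := Polynomial.X_mul_divX_add e.2
    rw [h.s1, C_0, add_zero] at this
    simp [this]

theorem LZ_gz (s : E k) : LZ (gz s) := by
  constructor <;> simp [fz]

theorem E_h1 (e : E k) (h : gz e = 0) : ∃ a b, e = gx a + gv b := by
  have h2 : X * e.2 = 0 := congrArg (fun e => e.2) h
  have hf : e.2 = 0 := by
    rcases mul_eq_zero.mp h2 with h' | h'
    · exact absurd h' X_ne_zero
    · exact h'
  have c1 : e.1 .r1 = 0 := congrArg (fun e => e.1 .zr1) h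
  have c2 : e.1 .zr1 = 0 := congrArg (fun e => e.1 .zzr1) h
  have c3 : e.1 .r2 = 0 := congrArg (fun e => e.1 .zr2) h
  have c4 : e.1 .zr2 = 0 := congrArg (fun e => e.1 .zzr2) h
  have c5 : e.1 .s2 = 0 := congrArg (fun e => e.1 .zs2) h
  have c6 : e.1 .zs2 = 0 := congrArg (fun e => e.1 .zzs2) h
  have c7 : e.1 .us2 = 0 := congrArg (fun e => e.1 .zus2) h
  refine ⟨E.mk (fun i => match i with
      | .r1 => e.1 .xr1
      | .r2 => e.1 .xr2
      | .s2 => e.1 .xs2 - e.1 .zzs2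
      | .us2 => - e.1 .zus2
      | .xr1 => e.1 .xxr1 + e.1 .zus2
      | .vs1 => e.1 .xvs1
      | .vs2 => e.1 .xxs2 - e.1 .zzs2
      | .xr2 => e.1 .xxr2 - e.1 .zzr1
      | .xs1 => - e.1 .zzr2
      | _ => 0) (C (e.1 .xs1 - e.1 .zzr1)),
    E.mk (fun i => match i with
      | .r1 => e.1 .zzr1
      | .r2 => e.1 .zzs2
      | .s2 => e.1 .vs2
      | _ => 0) (C (e.1 .vs1)), ?_⟩
  apply E.ext'
  · intro i; cases i <;> simp [fx, fv, c1, c2, c3, c4, c5, c6, c7]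
  · simp [hf]

/-- The common part of `E_h2` and `E_h4`. -/
theorem E_h24 (a b : E k) (h0 : a.2.coeff 0 = 0) (h1 : a.1 .r1 = 0) (h2 : a.1 .r2 = 0)
    (h3 : a.1 .s2 = 0) (h4 : b.2.coeff 0 = 0) (h5 : b.1 .r1 = 0) (h6 : b.1 .r2 = 0)
    (h7 : b.1 .s2 = 0) (h8 : a.1 .us2 + b.1 .vs1 = 0) (h9 : a.1 .xr1 + b.1 .us2 = 0)
    (h10 : a.1 .vs1 + b.1 .xs1 = 0) (h11 : a.1 .xr2 = 0) (h12 : a.1 .xs1 + b.1 .xr1 = 0)
    (h13 : a.1 .vs2 + a.1 .xs2 + b.1 .xr2 + b.1 .xs2 = 0) :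
    ∃ c d e f, a = gy c + gv d + gz e ∧ b = -(gu c) - gx d + gz f := by
  have key : ∃ c d, LZ (a - gy c - gv d) ∧ LZ (b + gu c + gx d) := by
    refine ⟨E.mk (fun i => match i with
        | .r2 => a.1 .us2
        | .s2 => a.1 .xr1
        | .r1 => a.1 .vs2 + b.1 .xs2
        | .us2 => a.1 .xxr2 - a.1 .xs1
        | .xr2 => - b.1 .xvs1
        | .xs2 => a.1 .xxr1 + b.1 .xvs1
        | .vs2 => - b.1 .xxr1 - a.1 .xxr1 - b.1 .xvs1
        | .xs1 => - b.1 .xxs2 - a.1 .xxs2 + a.1 .xs2 - b.1 .xxr2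
        | _ => 0) (C (- b.1 .vs2)),
      E.mk (fun i => match i with
        | .r1 => a.1 .xs1
        | .r2 => a.1 .xs2
        | .s2 => - b.1 .xs2
        | .xs1 => a.1 .xvs1
        | .xr2 => - b.1 .xxr2
        | .xs2 => a.1 .xxs2 - a.1 .xs2 + b.1 .xxr2
        | _ => 0) (C (a.1 .vs1)), ?_, ?_⟩
    · constructor <;> simp [fy, fv] <;> grind
    · constructor <;> simp [fx, fu] <;> grind
  obtain ⟨c, d, hc, hd⟩ := key
  obtain ⟨e, he⟩ := hc.exists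
  obtain ⟨f, hf⟩ := hd.exists
  exact ⟨c, d, e, f, by rw [← he]; abel, by rw [← hf]; abel⟩

theorem E_h2 (a b : E k) (h : gx a + gv b = 0) :
    ∃ c d e f, a = gy c + gv d + gz e ∧ b = -(gu c) - gx d + gz f := by
  have q0 := congrArg (fun e => e.1 .xs1) h
  have q1 := congrArg (fun e => e.1 .xr1) h
  have q2 := congrArg (fun e => e.1 .xr2) h
  have q3 := congrArg (fun e => e.1 .xs2) h
  have q4 := congrArg (fun e => e.1 .zus2) h
  have q5 := congrArg (fun e => e.1 .xxr1) h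
  have q6 := congrArg (fun e => e.1 .xvs1) h
  have q7 := congrArg (fun e => e.1 .xxs2) h
  have q8 := congrArg (fun e => e.1 .xxr2) h
  have q9 := congrArg (fun e => e.1 .zzr2) h
  have q10 := congrArg (fun e => e.1 .vs1) h
  have q11 := congrArg (fun e => e.1 .zzr1) h
  have q12 := congrArg (fun e => e.1 .zzs2) h
  have q13 := congrArg (fun e => e.1 .vs2) h
  simp [fx, fv] at q0 q1 q2 q3 q4 q5 q6 q7 q8 q9 q10 q11 q12 q13
  apply E_h24 a b <;> grind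

theorem E_h4 (a b s t : E k) (h : gx a + gv b = gz s) (h' : gu a + gy b = gz t) :
    ∃ c d e f, a = gy c + gv d + gz e ∧ b = -(gu c) - gx d + gz f := by
  have p1 := LZ_gz s
  have p2 := LZ_gz t
  rw [← h] at p1
  rw [← h'] at p2
  have q0 := p1.r1
  have q1 := p1.r2
  have q2 := p1.s2
  have q3 := p1.us2
  have q4 := p1.vs1
  have q5 := p1.vs2
  have q6 := p1.xr2
  have q7 := p1.xr1
  have q8 := p1.xs1
  have q9 := p1.xs2
  have q10 := p1.xvs1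
  have q11 := p1.xxr1
  have q12 := p1.xxs2
  have q13 := p1.xxr2
  have r0 := p2.r1
  have r1 := p2.r2
  have r2 := p2.s2
  have r3 := p2.us2
  have r4 := p2.vs1
  have r5 := p2.vs2
  have r6 := p2.xr2
  have r7 := p2.xr1
  have r8 := p2.xs1
  have r9 := p2.xs2
  have r10 := p2.xvs1
  have r11 := p2.xxr1
  have r12 := p2.xxs2
  have r13 := p2.xxr2
  simp [fx, fy, fu, fv] at q0 q1 q2 q3 q4 q5 q6 q7 q8 q9 q10 q11 q12 q13 r0 r1 r2 r3 r4 r5 r6 r7 r8 r9 r10 r11 r12 r13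
  apply E_h24 a b <;> grind

theorem E_h3 (a b s t : E k) (h : gy a + gv b = gz s) (h' : gu a + gx b = gz t) :
    ∃ c d e f, a = gx c + gv d + gz e ∧ b = -(gu c) - gy d + gz f := by
  have p1 := LZ_gz s
  have p2 := LZ_gz t
  rw [← h] at p1
  rw [← h'] at p2
  have q0 := p1.r1
  have q1 := p1.r2
  have q2 := p1.s2
  have q3 := p1.us2
  have q4 := p1.vs1
  have q5 := p1.vs2
  have q6 := p1.xr2
  have q7 := p1.xr1
  have q8 := p1.xs1
  have q9 := p1.xs2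
  have q10 := p1.xvs1
  have q11 := p1.xxr1
  have q12 := p1.xxs2
  have q13 := p1.xxr2
  have r0 := p2.r1
  have r1 := p2.r2
  have r2 := p2.s2
  have r3 := p2.us2
  have r4 := p2.vs1
  have r5 := p2.vs2
  have r6 := p2.xr2
  have r7 := p2.xr1
  have r8 := p2.xs1
  have r9 := p2.xs2
  have r10 := p2.xvs1
  have r11 := p2.xxr1
  have r12 := p2.xxs2
  have r13 := p2.xxr2
  simp [fx, fy, fu, fv] at q0 q1 q2 q3 q4 q5 q6 q7 q8 q9 q10 q11 q12 q13 r0 r1 r2 r3 r4 r5 r6 r7 r8 r9 r10 r11 r12 r13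
  have key : ∃ c d, LZ (a - gx c - gv d) ∧ LZ (b + gu c + gy d) := by
    refine ⟨E.mk (fun i => match i with
        | .r1 => a.1 .xr1
        | .r2 => a.1 .xr2
        | .s2 => a.1 .xs2 - a.1 .xxs2 - b.1 .xxr1
        | .vs1 => a.1 .xvs1
        | .xr2 => - b.1 .xvs1
        | .vs2 => - b.1 .xxr1
        | .xr1 => - b.1 .xxr2
        | .us2 => a.1 .xxr1 + b.1 .xxr2
        | .xs1 => - b.1 .xxs2
        | _ => 0) (C (a.1 .xs1 - a.1 .xxr2 - b.1 .xvs1)),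
      E.mk (fun i => match i with
        | .r1 => a.1 .xxr2 + b.1 .xvs1
        | .r2 => a.1 .xxs2 + b.1 .xxr1
        | .s2 => a.1 .vs2
        | _ => 0) (C (a.1 .vs1)), ?_, ?_⟩
    · constructor <;> simp [fx, fv] <;> grind
    · constructor <;> simp [fy, fu] <;> grind
  obtain ⟨c, d, hc, hd⟩ := key
  obtain ⟨e, he⟩ := hc.exists
  obtain ⟨f, hf⟩ := hd.exists
  exact ⟨c, d, e, f, by rw [← he]; abel, by rw [← hf]; abel⟩

end Pool.Agent.MP_2d5e52_al
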