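import Pool.Agent.MP_2d5e52_al.Good

open MvPolynomial

namespace Pool.Agent.MP_2d5e52_al

/-- The polynomial ring in the five variables `x, y, u, v, z`. -/
abbrev S (k : Type) [Field k] : Type := MvPolynomial (Fin 5) k

variable (k : Type) [Field k]

/-- The ideal `(xy - uv, xz, vz)`. -/
noncomputable def J : Ideal (S k) := Ideal.span {X 0 * X 1 - X 2 * X 3, X 0 * X 4, X 3 * X 4}

/-- The ring `k[x,y,u,v,z]/(xy - uv, xz, vz)`. -/
abbrev R0 : Type := S k ⧸ J k

/-- substitution `z ↦ 0` -/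
noncomputable def zeta : S k →ₐ[k] S k := aeval ![X 0, X 1, X 2, X 3, 0]

/-- substitution `x, v ↦ 0` -/
noncomputable def pixv : S k →ₐ[k] S k := aeval ![0, X 1, X 2, 0, X 4]

theorem sub_zeta_mem (a : S k) : ∃ e, a = zeta k a + X 4 * e := by
  have h : a - zeta k a ∈ Ideal.span {(X 4 : S k)} := by
    rw [← Ideal.Quotient.eq]
    have : (Ideal.Quotient.mkₐ k (Ideal.span {(X 4 : S k)})) =
        (Ideal.Quotient.mkₐ k (Ideal.span {(X 4 : S k)})).comp (zeta k) := by
      apply MvPolynomial.algHom_ext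
      intro i
      fin_cases i <;> simp [zeta]
    exact AlgHom.congr_fun this a
  obtain ⟨e, he⟩ := Ideal.mem_span_singleton.mp h
  exact ⟨e, by rw [← he]; ring⟩

theorem sub_pixv_mem (a : S k) : ∃ e f, a = pixv k a + X 0 * e + X 3 * f := by
  have h : a - pixv k a ∈ Ideal.span {(X 0 : S k), X 3} := by
    rw [← Ideal.Quotient.eq]
    have : (Ideal.Quotient.mkₐ k (Ideal.span {(X 0 : S k), X 3})) =
        (Ideal.Quotient.mkₐ k (Ideal.span {(X 0 : S k), X 3})).comp (pixv k) := by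
      apply MvPolynomial.algHom_ext
      intro i
      fin_cases i <;> simp [pixv, Ideal.Quotient.eq_zero_iff_mem]
      · exact Ideal.subset_span (by simp)
      · exact Ideal.subset_span (by simp)
    exact AlgHom.congr_fun this a
  obtain ⟨e, f, he⟩ := Ideal.mem_span_pair.mp h
  exact ⟨e, f, by linear_combination -he⟩

theorem zeta_J (a : S k) (ha : a ∈ J k) : ∃ g, zeta k a = (X 0 * X 1 - X 2 * X 3) * g := by
  have : J k ≤ Ideal.comap (zeta k) (Ideal.span {X 0 * X 1 - X 2 * X 3}) := by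
    rw [J, Ideal.span_le]
    rintro s (rfl | rfl | rfl) <;> simp [zeta]
  exact Ideal.mem_span_singleton.mp (this ha)

theorem pixv_J (a : S k) (ha : a ∈ J k) : pixv k a = 0 := by
  have : J k ≤ RingHom.ker (pixv k) := by
    rw [J, Ideal.span_le]
    rintro s (rfl | rfl | rfl) <;> simp [pixv, RingHom.mem_ker]
  exact this ha

theorem key_syz {A : Type*} [CommRing A] [IsDomain A] (p q r v a b g : A) (hv : Prime v)
    (hvp : ¬ v ∣ p) (h : p * a + v * b = (p * q - r * v) * g) :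
    ∃ d, a = q * g + v * d ∧ b = -(r * g) - p * d := by
  have h1 : v ∣ p * (a - q * g) := ⟨-(b + r * g), by linear_combination h⟩
  obtain ⟨d, hd⟩ := (hv.dvd_or_dvd h1).resolve_left hvp
  refine ⟨d, by rw [← hd]; ring, ?_⟩
  have : v * (b + r * g + p * d) = 0 := by linear_combination h - p * hd
  rcases mul_eq_zero.mp this with h' | h'
  · exact absurd h' hv.ne_zero
  · linear_combination h'

theorem lift_syz (p q : Fin 5) (hp : zeta k (X p) = X p) (hvp : ¬ (X 3 : S k) ∣ X p)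
    (hpq : (X p * X q : S k) = X 0 * X 1) (A B T : S k)
    (h : X p * A + X 3 * B - X 4 * T ∈ J k) :
    ∃ c d e f : S k, A = X q * c + X 3 * d + X 4 * e ∧ B = -(X 2 * c) - X p * d + X 4 * f := by
  obtain ⟨g, hg⟩ := zeta_J k _ h
  have h3 : zeta k (X 3) = X 3 := by simp [zeta]
  have h4 : zeta k (X 4) = 0 := by simp [zeta]
  rw [map_sub, map_add, map_mul, map_mul, map_mul, hp, h3, h4, zero_mul, sub_zero, ← hpq] at hg
  obtain ⟨d, hd1, hd2⟩ := key_syz (X p) (X q) (X 2) (X 3) _ _ g (MvPolynomial.X_prime) hvp hg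
  obtain ⟨e, he⟩ := sub_zeta_mem k A
  obtain ⟨f, hf⟩ := sub_zeta_mem k B
  exact ⟨g, d, e, f, by rw [he, hd1], by rw [hf, hd2]⟩

theorem lift_syz' (p q : Fin 5) (hp : zeta k (X p) = X p) (hvp : ¬ (X 3 : S k) ∣ X p)
    (hpq : (X p * X q : S k) = X 0 * X 1) (a b t : R0 k)
    (h : Ideal.Quotient.mk (J k) (X p) • a + Ideal.Quotient.mk (J k) (X 3) • b =
      Ideal.Quotient.mk (J k) (X 4) • t) :
    ∃ c d e f : R0 k, a = Ideal.Quotient.mk (J k) (X q) • c + Ideal.Quotient.mk (J k) (X 3) • d +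
      Ideal.Quotient.mk (J k) (X 4) • e ∧ b = -(Ideal.Quotient.mk (J k) (X 2) • c) -
      Ideal.Quotient.mk (J k) (X p) • d + Ideal.Quotient.mk (J k) (X 4) • f := by
  obtain ⟨a, rfl⟩ := Ideal.Quotient.mk_surjective a
  obtain ⟨b, rfl⟩ := Ideal.Quotient.mk_surjective b
  obtain ⟨t, rfl⟩ := Ideal.Quotient.mk_surjective t
  rw [← sub_eq_zero] at h
  simp only [smul_eq_mul, ← map_mul, ← map_add, ← map_sub, Ideal.Quotient.eq_zero_iff_mem] at h
  obtain ⟨c, d, e, f, h1, h2⟩ := lift_syz k p q hp hvp hpq a b t h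
  refine ⟨Ideal.Quotient.mk _ c, Ideal.Quotient.mk _ d, Ideal.Quotient.mk _ e,
    Ideal.Quotient.mk _ f, ?_, ?_⟩
  · simp only [smul_eq_mul, ← map_mul, ← map_add]; rw [← h1]
  · simp only [smul_eq_mul, ← map_mul, ← map_add, ← map_sub, ← map_neg]; rw [← h2]

theorem X3_not_dvd (p : Fin 5) (hp : p ≠ 3) : ¬ (X 3 : S k) ∣ X p := by
  rw [MvPolynomial.X_dvd_X]
  simp [Ne.symm hp]

theorem R0_good : Good (R0 k) (Ideal.Quotient.mk (J k) (X 0)) (Ideal.Quotient.mk (J k) (X 1))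
    (Ideal.Quotient.mk (J k) (X 2)) (Ideal.Quotient.mk (J k) (X 3))
    (Ideal.Quotient.mk (J k) (X 4)) (R0 k) where
  h1 n hn := by
    obtain ⟨n, rfl⟩ := Ideal.Quotient.mk_surjective n
    rw [smul_eq_mul, ← map_mul, Ideal.Quotient.eq_zero_iff_mem] at hn
    have h := pixv_J k _ hn
    rw [map_mul] at h
    have h4 : pixv k (X 4) = X 4 := by simp [pixv]
    rw [h4] at h
    rcases mul_eq_zero.mp h with h' | h'
    · exact absurd h' (X_ne_zero _)
    · obtain ⟨e, f, hef⟩ := sub_pixv_mem k n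
      refine ⟨Ideal.Quotient.mk _ e, Ideal.Quotient.mk _ f, ?_⟩
      rw [h', zero_add] at hef
      simp only [smul_eq_mul, ← map_mul, ← map_add]
      rw [← hef]
  h2 a b hab := lift_syz' k 0 1 (by simp [zeta]) (X3_not_dvd k 0 (by decide)) rfl a b 0
    (by rw [hab, smul_zero])
  h3 a b s _ hs _ := lift_syz' k 1 0 (by simp [zeta]) (X3_not_dvd k 1 (by decide))
    (mul_comm _ _) a b s hs
  h4 a b s _ hs _ := lift_syz' k 0 1 (by simp [zeta]) (X3_not_dvd k 0 (by decide)) rfl a b s hs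

end Pool.Agent.MP_2d5e52_al
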