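import Pool.Agent.MP_2d5e52_al.EGood
import Pool.Agent.MP_2d5e52_al.RingGood

namespace Pool.Agent.MP_2d5e52_al

open MvPolynomial

variable (k : Type) [Field k]

/-- The five commuting endomorphisms of `E`. -/
noncomputable def gen : Fin 5 → Module.End k (E k) := ![gx, gy, gu, gv, gz]

theorem gen_comm (i j : Fin 5) : gen k i * gen k j = gen k j * gen k i := by
  fin_cases i <;> fin_cases j <;> refine LinearMap.ext fun e => ?_ <;>
  simp [gen, comm_xy, comm_xu, comm_xv, comm_xz, comm_yu, comm_yv, comm_yz, comm_uv, comm_uz,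
    comm_vz]

/-- The commutative algebra generated by the five endomorphisms. -/
abbrev T : Type := Algebra.adjoin k (Set.range (gen k))

instance : IsMulCommutative (T k) := Algebra.isMulCommutative_adjoin k (by
  rintro a ⟨i, rfl⟩ b ⟨j, rfl⟩
  exact gen_comm k i j)

open scoped IsMulCommutative in
noncomputable instance : CommRing (T k) := inferInstance

/-- The generators in `T`. -/
noncomputable def tgen (i : Fin 5) : T k := ⟨gen k i, Algebra.subset_adjoin ⟨i, rfl⟩⟩

/-- The algebra map `S → T`. -/
noncomputable def rho0 : S k →ₐ[k] T k := aeval (tgen k)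

theorem rho0_X (i : Fin 5) : rho0 k (X i) = tgen k i := by simp [rho0]

theorem rho0_J (a : S k) (ha : a ∈ J k) : (rho0 k : S k →+* T k) a = 0 := by
  have : J k ≤ RingHom.ker (rho0 k) := by
    rw [J, Ideal.span_le]
    rintro s (rfl | rfl | rfl)
    · rw [SetLike.mem_coe, RingHom.mem_ker, map_sub, map_mul, map_mul, rho0_X, rho0_X, rho0_X,
        rho0_X, sub_eq_zero]
      exact Subtype.ext (LinearMap.ext fun e => rel_xyuv e)
    · rw [SetLike.mem_coe, RingHom.mem_ker, map_mul, rho0_X, rho0_X]
      exact Subtype.ext (LinearMap.ext fun e => rel_xz e)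
    · rw [SetLike.mem_coe, RingHom.mem_ker, map_mul, rho0_X, rho0_X]
      exact Subtype.ext (LinearMap.ext fun e => rel_vz e)
  exact this ha

/-- The ring map `R0 → T`. -/
noncomputable def rho : R0 k →+* T k := Ideal.Quotient.lift (J k) (rho0 k : S k →+* T k) (rho0_J k)

/-- `E` as a module over `R0`. -/
noncomputable instance : Module (R0 k) (E k) := Module.compHom (E k) (rho k)

theorem smul_X (i : Fin 5) (e : E k) : Ideal.Quotient.mk (J k) (X i) • e = gen k i e := by
  have : rho k (Ideal.Quotient.mk (J k) (X i)) = tgen k i := by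
    rw [← rho0_X]; rfl
  change rho k (Ideal.Quotient.mk (J k) (X i)) • e = _
  rw [this]; rfl

theorem smul_C (c : k) (e : E k) : Ideal.Quotient.mk (J k) (C c) • e = c • e := by
  have : rho k (Ideal.Quotient.mk (J k) (C c)) = algebraMap k (T k) c := by
    change rho0 k (C c) = _
    rw [← MvPolynomial.algebraMap_eq, AlgHom.commutes]
  change rho k (Ideal.Quotient.mk (J k) (C c)) • e = _
  rw [this]; rfl

theorem smul_x (e : E k) : Ideal.Quotient.mk (J k) (X 0) • e = gx e := smul_X k 0 e
theorem smul_y (e : E k) : Ideal.Quotient.mk (J k) (X 1) • e = gy e := smul_X k 1 e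
theorem smul_u (e : E k) : Ideal.Quotient.mk (J k) (X 2) • e = gu e := smul_X k 2 e
theorem smul_v (e : E k) : Ideal.Quotient.mk (J k) (X 3) • e = gv e := smul_X k 3 e
theorem smul_z (e : E k) : Ideal.Quotient.mk (J k) (X 4) • e = gz e := smul_X k 4 e

theorem E_good : Good (R0 k) (Ideal.Quotient.mk (J k) (X 0)) (Ideal.Quotient.mk (J k) (X 1))
    (Ideal.Quotient.mk (J k) (X 2)) (Ideal.Quotient.mk (J k) (X 3))
    (Ideal.Quotient.mk (J k) (X 4)) (E k) where
  h1 := by simpa only [smul_x, smul_v, smul_z] using E_h1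
  h2 := by simpa only [smul_x, smul_y, smul_u, smul_v, smul_z] using E_h2
  h3 := by simpa only [smul_x, smul_y, smul_u, smul_v, smul_z] using E_h3
  h4 := by simpa only [smul_x, smul_y, smul_u, smul_v, smul_z] using E_h4

end Pool.Agent.MP_2d5e52_al
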