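import Pool.Agent.MP_2d5e52_al.Good

/-!
# The explicit module

`E k` is the `k`-vector space with basis `z^j s1` (`j ≥ 0`) and the 21 elements listed in `B`.
It is presented by the four generators `s1, r1, s2, r2` and the nine relations

* `y s1 = - z r1`, `v s1 = u r2`, `u s1 = v s2`, `u r1 = (x + z) r2`, `x r1 = y s2`, `y r1 = v s2`,
* `v r1 = x s1 + z^2 r1 + x^2 r2`, `y r2 = u s2`, `v r2 = x s2 + z^2 s2 + x^2 s2`.
-/

namespace Pool.Agent.MP_2d5e52_al

open Polynomial

/-- The 21 basis elements of the torsion part. -/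
inductive B : Type
  | r1 | zr1 | zzr1 | r2 | zr2 | zzr2 | s2 | zs2 | zzs2 | us2 | zus2 | vs1 | vs2 | xr2 | xr1
  | xs1 | xs2 | xvs1 | xxr1 | xxs2 | xxr2
  deriving DecidableEq, Fintype

/-- The underlying vector space; the second component `f` stands for `f(z) s1`. -/
def E (k : Type) [Field k] : Type := (B → k) × k[X]

variable (k : Type) [Field k]

noncomputable instance : AddCommGroup (E k) := inferInstanceAs (AddCommGroup ((B → k) × k[X]))
noncomputable instance : Module k (E k) := inferInstanceAs (Module k ((B → k) × k[X]))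

variable {k}

/-- constructor -/
def E.mk (w : B → k) (f : k[X]) : E k := (w, f)

@[simp] theorem E.mk_fst (w : B → k) (f : k[X]) (i : B) : (E.mk w f).1 i = w i := rfl
@[simp] theorem E.mk_snd (w : B → k) (f : k[X]) : (E.mk w f).2 = f := rfl

@[ext] theorem E.ext' {a b : E k} (h1 : ∀ i, a.1 i = b.1 i) (h2 : a.2 = b.2) : a = b :=
  Prod.ext (funext h1) h2

@[simp] theorem E.add_fst (a b : E k) (i : B) : (a + b).1 i = a.1 i + b.1 i := rfl
@[simp] theorem E.add_snd (a b : E k) : (a + b).2 = a.2 + b.2 := rfl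
@[simp] theorem E.sub_fst (a b : E k) (i : B) : (a - b).1 i = a.1 i - b.1 i := rfl
@[simp] theorem E.sub_snd (a b : E k) : (a - b).2 = a.2 - b.2 := rfl
@[simp] theorem E.neg_fst (a : E k) (i : B) : (-a).1 i = -a.1 i := rfl
@[simp] theorem E.neg_snd (a : E k) : (-a).2 = -a.2 := rfl
@[simp] theorem E.smul_fst (c : k) (a : E k) (i : B) : (c • a).1 i = c * a.1 i := rfl
@[simp] theorem E.smul_snd (c : k) (a : E k) : (c • a).2 = c • a.2 := rfl
@[simp] theorem E.zero_fst (i : B) : (0 : E k).1 i = 0 := rfl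
@[simp] theorem E.zero_snd : (0 : E k).2 = 0 := rfl

/-- first component of the action of `x` -/
def fx (w : B → k) (s0 : k) : B → k
  | .xs1 => s0
  | .xr1 => w .r1
  | .xr2 => w .r2
  | .xs2 => w .s2
  | .zus2 => -w .us2
  | .xxr1 => w .us2 + w .xr1
  | .xvs1 => w .vs1
  | .xxs2 => w .vs2 + w .xs2
  | .xxr2 => w .xr2
  | .zzr2 => -w .xs1
  | _ => 0

/-- first component of the action of `y` -/
def fy (w : B → k) (s0 s1 : k) : B → k
  | .zr1 => -s0
  | .zzr1 => -s1
  | .vs2 => w .r1
  | .us2 => w .r2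
  | .zus2 => w .zr2 - w .xr2
  | .xr1 => w .s2
  | .xxr2 => w .us2
  | .zzr2 => -w .vs2
  | .xxr1 => w .xr2 + w .xs2
  | .xxs2 => w .xr1
  | _ => 0

/-- first component of the action of `u` -/
def fu (w : B → k) (s0 : k) : B → k
  | .vs2 => s0
  | .zr2 => w .r1
  | .xr2 => w .r1
  | .zzr2 => w .zr1
  | .vs1 => w .r2
  | .us2 => w .s2
  | .zus2 => w .zs2 - w .xs2
  | .xxr1 => w .vs2 + w .xs2
  | .xvs1 => w .xr2
  | .xxr2 => w .xr1
  | .xxs2 => w .xs1
  | _ => 0

/-- first component of the action of `v` -/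
def fv (w : B → k) (s0 : k) : B → k
  | .vs1 => s0
  | .zzr1 => w .r1
  | .xs1 => w .r1
  | .xxr2 => w .r1
  | .zzs2 => w .r2
  | .xs2 => w .r2
  | .xxs2 => w .r2 + w .xr2 + w .xs2
  | .vs2 => w .s2
  | .xxr1 => w .us2 + w .vs1
  | .zus2 => -w .vs1
  | .zzr2 => -w .xr1
  | .xvs1 => w .xs1
  | _ => 0

/-- first component of the action of `z` -/
def fz (w : B → k) : B → k
  | .zr1 => w .r1
  | .zzr1 => w .zr1
  | .zr2 => w .r2
  | .zzr2 => w .zr2
  | .zs2 => w .s2
  | .zzs2 => w .zs2
  | .zus2 => w .us2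
  | _ => 0

/-- the action of `x` -/
noncomputable def gx : E k →ₗ[k] E k where
  toFun e := E.mk (fx e.1 (e.2.coeff 0)) 0
  map_add' a b := by
    apply E.ext'
    · intro i; cases i <;> simp [fx] <;> ring
    · simp
  map_smul' c a := by
    apply E.ext'
    · intro i; cases i <;> simp [fx] <;> ring
    · simp

/-- the action of `y` -/
noncomputable def gy : E k →ₗ[k] E k where
  toFun e := E.mk (fy e.1 (e.2.coeff 0) (e.2.coeff 1)) 0
  map_add' a b := by
    apply E.ext'
    · intro i; cases i <;> simp [fy] <;> ring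
    · simp
  map_smul' c a := by
    apply E.ext'
    · intro i; cases i <;> simp [fy] <;> ring
    · simp

/-- the action of `u` -/
noncomputable def gu : E k →ₗ[k] E k where
  toFun e := E.mk (fu e.1 (e.2.coeff 0)) 0
  map_add' a b := by
    apply E.ext'
    · intro i; cases i <;> simp [fu] <;> ring
    · simp
  map_smul' c a := by
    apply E.ext'
    · intro i; cases i <;> simp [fu] <;> ring
    · simp

/-- the action of `v` -/
noncomputable def gv : E k →ₗ[k] E k where
  toFun e := E.mk (fv e.1 (e.2.coeff 0)) 0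
  map_add' a b := by
    apply E.ext'
    · intro i; cases i <;> simp [fv] <;> ring
    · simp
  map_smul' c a := by
    apply E.ext'
    · intro i; cases i <;> simp [fv] <;> ring
    · simp

/-- the action of `z` -/
noncomputable def gz : E k →ₗ[k] E k where
  toFun e := E.mk (fz e.1) (X * e.2)
  map_add' a b := by
    apply E.ext'
    · intro i; cases i <;> simp [fz]
    · simp [mul_add]
  map_smul' c a := by
    apply E.ext'
    · intro i; cases i <;> simp [fz]
    · simp

@[simp] theorem gx_fst (e : E k) : (gx e).1 = fx e.1 (e.2.coeff 0) := rfl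
@[simp] theorem gx_snd (e : E k) : (gx e).2 = 0 := rfl
@[simp] theorem gy_fst (e : E k) : (gy e).1 = fy e.1 (e.2.coeff 0) (e.2.coeff 1) := rfl
@[simp] theorem gy_snd (e : E k) : (gy e).2 = 0 := rfl
@[simp] theorem gu_fst (e : E k) : (gu e).1 = fu e.1 (e.2.coeff 0) := rfl
@[simp] theorem gu_snd (e : E k) : (gu e).2 = 0 := rfl
@[simp] theorem gv_fst (e : E k) : (gv e).1 = fv e.1 (e.2.coeff 0) := rfl
@[simp] theorem gv_snd (e : E k) : (gv e).2 = 0 := rfl
@[simp] theorem gz_fst (e : E k) : (gz e).1 = fz e.1 := rfl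
@[simp] theorem gz_snd (e : E k) : (gz e).2 = X * e.2 := rfl

theorem comm_xy (e : E k) : gx (gy e) = gy (gx e) := by
  apply E.ext'
  · intro i; cases i <;> simp [fx, fy] <;> ring
  · simp

theorem comm_xu (e : E k) : gx (gu e) = gu (gx e) := by
  apply E.ext'
  · intro i; cases i <;> simp [fx, fu] <;> ring
  · simp

theorem comm_xv (e : E k) : gx (gv e) = gv (gx e) := by
  apply E.ext'
  · intro i; cases i <;> simp [fx, fv] <;> ring
  · simp

theorem comm_xz (e : E k) : gx (gz e) = gz (gx e) := by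
  apply E.ext'
  · intro i; cases i <;> simp [fx, fz]
  · simp

theorem comm_yu (e : E k) : gy (gu e) = gu (gy e) := by
  apply E.ext'
  · intro i; cases i <;> simp [fy, fu] <;> ring
  · simp

theorem comm_yv (e : E k) : gy (gv e) = gv (gy e) := by
  apply E.ext'
  · intro i; cases i <;> simp [fy, fv] <;> ring
  · simp

theorem comm_yz (e : E k) : gy (gz e) = gz (gy e) := by
  apply E.ext'
  · intro i; cases i <;> simp [fy, fz] <;> ring
  · simp

theorem comm_uv (e : E k) : gu (gv e) = gv (gu e) := by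
  apply E.ext'
  · intro i; cases i <;> simp [fu, fv] <;> ring
  · simp

theorem comm_uz (e : E k) : gu (gz e) = gz (gu e) := by
  apply E.ext'
  · intro i; cases i <;> simp [fu, fz] <;> ring
  · simp

theorem comm_vz (e : E k) : gv (gz e) = gz (gv e) := by
  apply E.ext'
  · intro i; cases i <;> simp [fv, fz]
  · simp

theorem rel_xyuv (e : E k) : gx (gy e) = gu (gv e) := by
  apply E.ext'
  · intro i; cases i <;> simp [fx, fy, fu, fv] <;> ring
  · simp

theorem rel_xz (e : E k) : gx (gz e) = 0 := by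
  apply E.ext'
  · intro i; cases i <;> simp [fx, fz]
  · simp

theorem rel_vz (e : E k) : gv (gz e) = 0 := by
  apply E.ext'
  · intro i; cases i <;> simp [fv, fz]
  · simp

end Pool.Agent.MP_2d5e52_al
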