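import Pool.Agent.MP_2d5e52_al.Good

namespace Pool.Agent.MP_2d5e52_al

variable {R : Type*} [CommRing R] {x y u v z : R} (Sm : Submonoid R)
  {E : Type*} [AddCommGroup E] [Module R E] {N : Type*} [AddCommGroup N] [Module R N]
  (f : E →ₗ[R] N) [IsLocalizedModule Sm f]

theorem common_den (a b c d : N) : ∃ (w : Sm) (A B C D : E),
    (w : R) • a = f A ∧ (w : R) • b = f B ∧ (w : R) • c = f C ∧ (w : R) • d = f D := by
  obtain ⟨⟨A, s1⟩, hA⟩ := IsLocalizedModule.surj Sm f a
  obtain ⟨⟨B, s2⟩, hB⟩ := IsLocalizedModule.surj Sm f b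
  obtain ⟨⟨C, s3⟩, hC⟩ := IsLocalizedModule.surj Sm f c
  obtain ⟨⟨D, s4⟩, hD⟩ := IsLocalizedModule.surj Sm f d
  simp only [Submonoid.smul_def] at hA hB hC hD
  refine ⟨s1 * s2 * s3 * s4, ((s2 : R) * s3 * s4) • A, ((s1 : R) * s3 * s4) • B,
    ((s1 : R) * s2 * s4) • C, ((s1 : R) * s2 * s3) • D, ?_, ?_, ?_, ?_⟩ <;>
  simp only [map_smul, ← hA, ← hB, ← hC, ← hD, smul_smul, Submonoid.coe_mul] <;>
  congr 1 <;> ring

/-- The solution part: lift back from the module to the localization. -/
theorem lift_back (w : Sm) (a b : N) (A B : E) (p q r : R) (c d e g : E)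
    (ha : (w : R) • a = f A) (hb : (w : R) • b = f B)
    (hA : A = p • c + v • d + z • e) (hB : B = -(q • c) - r • d + z • g) :
    ∃ c d e g : N, a = p • c + v • d + z • e ∧ b = -(q • c) - r • d + z • g := by
  have key : ∀ m : E, (w : R) • IsLocalizedModule.mk' f m w = f m := fun m =>
    IsLocalizedModule.mk'_cancel' f m w
  have inj : ∀ m n : N, (w : R) • m = (w : R) • n → m = n := fun m n h =>
    IsLocalizedModule.smul_injective f w h
  refine ⟨IsLocalizedModule.mk' f c w, IsLocalizedModule.mk' f d w, IsLocalizedModule.mk' f e w,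
    IsLocalizedModule.mk' f g w, inj _ _ ?_, inj _ _ ?_⟩
  · rw [ha, hA]
    simp only [smul_add, smul_comm (w : R), key, map_add, map_smul]
  · rw [hb, hB]
    simp only [smul_add, smul_sub, smul_neg, smul_comm (w : R), key, map_add, map_sub, map_neg,
      map_smul]

include Sm f in
/-- Goodness passes to localizations. -/
theorem Good.localize (hE : Good R x y u v z E) : Good R x y u v z N where
  h1 n hn := by
    obtain ⟨⟨A, s⟩, hA⟩ := IsLocalizedModule.surj Sm f n
    simp only [Submonoid.smul_def] at hA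
    have h0 : f (z • A) = 0 := by rw [map_smul, ← hA, smul_comm, hn, smul_zero]
    obtain ⟨c, hc⟩ := (IsLocalizedModule.eq_zero_iff Sm f).mp h0
    simp only [Submonoid.smul_def] at hc
    obtain ⟨a, b, hab⟩ := hE.h1 ((c : R) • A) (by rw [smul_comm]; exact hc)
    refine ⟨IsLocalizedModule.mk' f a (c * s), IsLocalizedModule.mk' f b (c * s), ?_⟩
    apply IsLocalizedModule.smul_injective f (c * s)
    have key : ∀ m : E, ((c * s : Sm) : R) • IsLocalizedModule.mk' f m (c * s) = f m := fun m =>
      IsLocalizedModule.mk'_cancel' f m (c * s)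
    have e1 : ((c * s : Sm) : R) • n = f ((c : R) • A) := by
      rw [map_smul, ← hA, smul_smul, Submonoid.coe_mul]
    simp only [Submonoid.smul_def]
    rw [e1, hab, smul_add, smul_comm _ x, smul_comm _ v, key, key, map_add, map_smul, map_smul]
  h2 a b hab := by
    obtain ⟨w, A, B, -, -, hA, hB, -, -⟩ := common_den Sm f a b 0 0
    have h0 : f (x • A + v • B) = 0 := by
      rw [map_add, map_smul, map_smul, ← hA, ← hB, smul_comm x, smul_comm v, ← smul_add, hab,
        smul_zero]
    obtain ⟨c, hc⟩ := (IsLocalizedModule.eq_zero_iff Sm f).mp h0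
    simp only [Submonoid.smul_def] at hc
    obtain ⟨C, D, E', F, h1, h2⟩ := hE.h2 ((c : R) • A) ((c : R) • B) (by
      rw [← hc, smul_add, smul_comm x, smul_comm v])
    exact lift_back Sm f (c * w) a b _ _ y u x C D E' F
      (by rw [map_smul, ← hA, smul_smul, Submonoid.coe_mul])
      (by rw [map_smul, ← hB, smul_smul, Submonoid.coe_mul]) h1 h2
  h3 a b s t hs ht := by
    obtain ⟨w, A, B, S', T, hA, hB, hS, hT⟩ := common_den Sm f a b s t
    have h0 : f (y • A + v • B - z • S') = 0 := by
      rw [map_sub, map_add, map_smul, map_smul, map_smul, ← hA, ← hB, ← hS, smul_comm y,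
        smul_comm v, smul_comm z, ← smul_add, hs, sub_self]
    have h0' : f (u • A + x • B - z • T) = 0 := by
      rw [map_sub, map_add, map_smul, map_smul, map_smul, ← hA, ← hB, ← hT, smul_comm u,
        smul_comm x, smul_comm z, ← smul_add, ht, sub_self]
    obtain ⟨c, hc⟩ := (IsLocalizedModule.eq_zero_iff Sm f).mp h0
    obtain ⟨c', hc'⟩ := (IsLocalizedModule.eq_zero_iff Sm f).mp h0'
    simp only [Submonoid.smul_def] at hc hc'
    obtain ⟨C, D, E', F, h1, h2⟩ := hE.h3 (((c * c' : Sm) : R) • A) (((c * c' : Sm) : R) • B)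
      (((c * c' : Sm) : R) • S') (((c * c' : Sm) : R) • T) (by
        rw [Submonoid.coe_mul]
        linear_combination (norm := module) (c' : R) • hc) (by
        rw [Submonoid.coe_mul]
        linear_combination (norm := module) (c : R) • hc')
    exact lift_back Sm f (c * c' * w) a b _ _ x u y C D E' F
      (by rw [map_smul, ← hA, smul_smul, ← Submonoid.coe_mul])
      (by rw [map_smul, ← hB, smul_smul, ← Submonoid.coe_mul]) h1 h2
  h4 a b s t hs ht := by
    obtain ⟨w, A, B, S', T, hA, hB, hS, hT⟩ := common_den Sm f a b s t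
    have h0 : f (x • A + v • B - z • S') = 0 := by
      rw [map_sub, map_add, map_smul, map_smul, map_smul, ← hA, ← hB, ← hS, smul_comm x,
        smul_comm v, smul_comm z, ← smul_add, hs, sub_self]
    have h0' : f (u • A + y • B - z • T) = 0 := by
      rw [map_sub, map_add, map_smul, map_smul, map_smul, ← hA, ← hB, ← hT, smul_comm u,
        smul_comm y, smul_comm z, ← smul_add, ht, sub_self]
    obtain ⟨c, hc⟩ := (IsLocalizedModule.eq_zero_iff Sm f).mp h0
    obtain ⟨c', hc'⟩ := (IsLocalizedModule.eq_zero_iff Sm f).mp h0'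
    simp only [Submonoid.smul_def] at hc hc'
    obtain ⟨C, D, E', F, h1, h2⟩ := hE.h4 (((c * c' : Sm) : R) • A) (((c * c' : Sm) : R) • B)
      (((c * c' : Sm) : R) • S') (((c * c' : Sm) : R) • T) (by
        rw [Submonoid.coe_mul]
        linear_combination (norm := module) (c' : R) • hc) (by
        rw [Submonoid.coe_mul]
        linear_combination (norm := module) (c : R) • hc')
    exact lift_back Sm f (c * c' * w) a b _ _ y u x C D E' F
      (by rw [map_smul, ← hA, smul_smul, ← Submonoid.coe_mul])
      (by rw [map_smul, ← hB, smul_smul, ← Submonoid.coe_mul]) h1 h2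

/-- Change of base ring. -/
theorem Good.algebraMap {T : Type*} [CommRing T] [Algebra R T] {N : Type*} [AddCommGroup N]
    [Module R N] [Module T N] [IsScalarTower R T N] (hN : Good R x y u v z N) :
    Good T (algebraMap R T x) (algebraMap R T y) (algebraMap R T u) (algebraMap R T v)
      (algebraMap R T z) N where
  h1 := by simpa only [algebraMap_smul] using hN.h1
  h2 := by simpa only [algebraMap_smul] using hN.h2
  h3 := by simpa only [algebraMap_smul] using hN.h3
  h4 := by simpa only [algebraMap_smul] using hN.h4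

end Pool.Agent.MP_2d5e52_al
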