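import Pool.Agent.MP_2d5e52_al.EFinite
import Pool.Agent.MP_2d5e52_al.Dim
import Pool.Agent.MP_2d5e52_al.Localize

namespace Pool.Agent.MP_2d5e52_al

open MvPolynomial

variable (k : Type) [Field k]

/-- The localization of `E` at the origin. -/
def N : Type := LocalizedModule (m0 k).primeCompl (E k)

noncomputable instance : AddCommGroup (N k) :=
  inferInstanceAs (AddCommGroup (LocalizedModule (m0 k).primeCompl (E k)))
noncomputable instance : Module (R0 k) (N k) :=
  inferInstanceAs (Module (R0 k) (LocalizedModule (m0 k).primeCompl (E k)))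
noncomputable instance : Module (Rk k) (N k) :=
  inferInstanceAs (Module (Localization (m0 k).primeCompl)
    (LocalizedModule (m0 k).primeCompl (E k)))
instance : IsScalarTower (R0 k) (Rk k) (N k) :=
  inferInstanceAs (IsScalarTower (R0 k) (Localization (m0 k).primeCompl)
    (LocalizedModule (m0 k).primeCompl (E k)))

/-- The localization map. -/
noncomputable def toN : E k →ₗ[R0 k] N k := LocalizedModule.mkLinearMap (m0 k).primeCompl (E k)

instance : IsLocalizedModule (m0 k).primeCompl (toN k) :=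
  inferInstanceAs (IsLocalizedModule (m0 k).primeCompl
    (LocalizedModule.mkLinearMap (m0 k).primeCompl (E k)))

instance : Module.Finite (Rk k) (N k) :=
  Module.Finite.of_isLocalizedModule (m0 k).primeCompl (toN k)

theorem N_good : Good (Rk k) (el k 0) (el k 1) (el k 2) (el k 3) (el k 4) (N k) :=
  (Good.localize (m0 k).primeCompl (toN k) (E_good k)).algebraMap

theorem Rk_good : Good (Rk k) (el k 0) (el k 1) (el k 2) (el k 3) (el k 4) (Rk k) :=
  (Good.localize (m0 k).primeCompl (Algebra.linearMap (R0 k) (Rk k)) (R0_good k)).algebraMap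

/-- `x, y, u, v ↦ 0`, `z ↦ X` -/
noncomputable def evz : R0 k →+* Polynomial k :=
  liftR0 k ![0, 0, 0, 0, Polynomial.X] (by simp) (by simp) (by simp)

theorem smul_snd (r : R0 k) (e : E k) : (r • e).2 = evz k r * e.2 := by
  obtain ⟨s, rfl⟩ := Ideal.Quotient.mk_surjective r
  rw [evz, liftR0_mk]
  induction s using MvPolynomial.induction_on generalizing e with
  | C a => rw [smul_C]; simp [Polynomial.smul_eq_C_mul]
  | add p q hp hq =>
    rw [map_add, add_smul, E.add_snd, hp, hq, map_add, add_mul]
  | mul_X p i hp =>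
    rw [map_mul, mul_smul, hp, smul_X, map_mul, aeval_X, mul_assoc]
    congr 1
    fin_cases i <;> simp [gen]

theorem ker_evz_lt : RingHom.ker (evz k) < m0 k := by
  refine lt_of_le_of_ne (ker_le_of_comp k _ _ _ _ _ _ _ _ (Polynomial.aeval 0) (by
    intro i; fin_cases i <;> simp)) fun h => ?_
  have h1 : Ideal.Quotient.mk (J k) (X 4) ∈ m0 k := by
    rw [m0, RingHom.mem_ker, ev0, liftR0_mk]; simp
  rw [← h, RingHom.mem_ker, evz, liftR0_mk] at h1
  simp at h1

theorem exists_Qz : ∃ Q : PrimeSpectrum (Rk k),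
    Q.asIdeal.comap (algebraMap (R0 k) (Rk k)) = RingHom.ker (evz k) ∧
    Q ∈ Module.support (Rk k) (N k) := by
  obtain ⟨Q, hQ⟩ := exists_prime k (RingHom.ker (evz k)) (RingHom.ker_isPrime _) (ker_evz_lt k).le
  refine ⟨Q, hQ, ?_⟩
  rw [Module.mem_support_iff']
  refine ⟨toN k (E.mk 0 1), fun r hr h0 => hr ?_⟩
  obtain ⟨⟨a, s⟩, has⟩ := IsLocalization.surj (m0 k).primeCompl r
  simp only at has
  have h1 : toN k (a • E.mk 0 1) = 0 := by
    rw [map_smul, ← algebraMap_smul (Rk k) a, ← has, mul_comm, mul_smul, h0, smul_zero]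
  obtain ⟨t, ht⟩ := (IsLocalizedModule.eq_zero_iff (m0 k).primeCompl (toN k)).mp h1
  rw [Submonoid.smul_def, smul_smul] at ht
  have h2 := congrArg (fun e : E k => e.2) ht
  simp only [smul_snd, E.mk_snd, mul_one, E.zero_snd, map_mul] at h2
  rcases mul_eq_zero.mp h2 with h3 | h3
  · exact absurd ((ker_evz_lt k).le (RingHom.mem_ker.mpr h3)) t.2
  · have h4 : algebraMap (R0 k) (Rk k) a ∈ Q.asIdeal := by
      have : a ∈ Q.asIdeal.comap (algebraMap (R0 k) (Rk k)) := by
        rw [hQ]; exact RingHom.mem_ker.mpr h3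
      exact this
    rw [← has] at h4
    rcases Q.isPrime.mem_or_mem h4 with h5 | h5
    · exact h5
    · have h6 : (s : R0 k) ∈ Q.asIdeal.comap (algebraMap (R0 k) (Rk k)) := h5
      rw [hQ] at h6
      exact absurd ((ker_evz_lt k).le h6) s.2

theorem one_le_dim_N : 1 ≤ Module.supportDim (Rk k) (N k) := by
  obtain ⟨Q, hQ, hmem⟩ := exists_Qz k
  obtain ⟨Q3, hQ3⟩ := exists_prime k (m0 k) inferInstance le_rfl
  have hlt : Q < Q3 := prime_lt k _ _ (by rw [hQ, hQ3]; exact ker_evz_lt k)
  rw [Module.supportDim, Order.one_le_krullDim_iff]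
  exact ⟨⟨Q, hmem⟩, ⟨Q3, Module.mem_support_mono hlt.le hmem⟩, hlt⟩

theorem cube_smul_E (i : Fin 5) (hi : i ≠ 4) (e : E k) :
    (Ideal.Quotient.mk (J k) (X i)) ^ 3 • e = 0 := by
  rw [pow_succ, pow_succ, pow_one, mul_smul, mul_smul, smul_X, smul_X, smul_X]
  fin_cases i
  · apply E.ext'
    · intro i; cases i <;> simp [gen, fx]
    · simp [gen]
  · apply E.ext'
    · intro i; cases i <;> simp [gen, fy]
    · simp [gen]
  · apply E.ext'
    · intro i; cases i <;> simp [gen, fu]
    · simp [gen]
  · apply E.ext'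
    · intro i; cases i <;> simp [gen, fv]
    · simp [gen]
  · exact absurd rfl hi

theorem cube_smul_N (i : Fin 5) (hi : i ≠ 4) (n : N k) : (el k i) ^ 3 • n = 0 := by
  obtain ⟨⟨a, s⟩, has⟩ := IsLocalizedModule.surj (m0 k).primeCompl (toN k) n
  simp only at has
  apply IsLocalizedModule.smul_injective (toN k) s
  simp only [smul_zero]
  rw [smul_comm, has, el, ← map_pow, algebraMap_smul, ← map_smul, cube_smul_E k i hi, map_zero]

theorem mem_of_pow_smul {A : Type} [CommRing A] {W : Type} [AddCommGroup W] [Module A W]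
    (p : PrimeSpectrum A) (hp : p ∈ Module.support A W) (r : A) (n : ℕ)
    (h : ∀ w : W, r ^ n • w = 0) : r ∈ p.asIdeal := by
  rw [Module.mem_support_iff'] at hp
  obtain ⟨m, hm⟩ := hp
  by_contra hr
  exact hm (r ^ n) (fun h' => hr (p.isPrime.mem_of_pow_mem n h')) (h m)

open TensorProduct in
theorem dim_tensor_le :
    Module.supportDim (Rk k) ((Rk k ⧸ Ideal.span {el k 4}) ⊗[Rk k] N k) ≤ 0 := by
  have key : ∀ p ∈ Module.support (Rk k) ((Rk k ⧸ Ideal.span {el k 4}) ⊗[Rk k] N k),
      p.asIdeal = IsLocalRing.maximalIdeal (Rk k) := by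
    intro p hp
    have hz : el k 4 ∈ p.asIdeal := by
      apply mem_of_pow_smul p hp (el k 4) 1
      intro w
      rw [pow_one]
      induction w using TensorProduct.induction_on with
      | zero => simp
      | add a b ha hb => rw [smul_add, ha, hb, add_zero]
      | tmul a b =>
        rw [TensorProduct.smul_tmul', Algebra.smul_def,
          show algebraMap (Rk k) (Rk k ⧸ Ideal.span {el k 4}) (el k 4) = 0 from
            Ideal.Quotient.eq_zero_iff_mem.mpr (Ideal.mem_span_singleton_self _), zero_mul,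
          TensorProduct.zero_tmul]
    have hi : ∀ i, i ≠ 4 → el k i ∈ p.asIdeal := by
      intro i hi
      apply mem_of_pow_smul p hp (el k i) 3
      intro w
      induction w using TensorProduct.induction_on with
      | zero => simp
      | add a b ha hb => rw [smul_add, ha, hb, add_zero]
      | tmul a b => rw [← TensorProduct.tmul_smul, cube_smul_N k i hi, TensorProduct.tmul_zero]
    have hall : ∀ i, el k i ∈ p.asIdeal := by
      intro i
      by_cases h : i = 4
      · rw [h]; exact hz
      · exact hi i h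
    exact le_antisymm (IsLocalRing.le_maximalIdeal p.isPrime.ne_top) (maximalIdeal_le k _ hall)
  have : Subsingleton (Module.support (Rk k) ((Rk k ⧸ Ideal.span {el k 4}) ⊗[Rk k] N k)) := by
    refine ⟨fun a b => Subtype.ext (PrimeSpectrum.ext ?_)⟩
    rw [key a.1 a.2, key b.1 b.2]
  exact Order.krullDim_nonpos_of_subsingleton

end Pool.Agent.MP_2d5e52_al
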