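import Pool.Agent.MP_2d5e52_al.Pd
import Pool.Agent.MP_2d5e52_al.NModule

namespace Pool.Agent.MP_2d5e52_al

open MvPolynomial

/-- `FRes R n N`: the module `N` has a resolution by finite free modules of length at most `n`. -/
def FRes (R : Type) [CommRing R] : ℕ → (N : ModuleCat.{0} R) → Prop
  | 0, N => Module.Free R N ∧ Module.Finite R N
  | n + 1, N => ∃ (m : ℕ) (g : (Fin m → R) →ₗ[R] N), Function.Surjective g ∧
      FRes R n (ModuleCat.of R (LinearMap.ker g))

theorem FRes.resolution (R : Type) [CommRing R] (n : ℕ) (N : ModuleCat.{0} R) (h : FRes R n N) :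
    ∃ (P : ℕ → ModuleCat.{0} R) (d : ∀ i : ℕ, (P (i + 1)) →ₗ[R] (P i)) (ε : (P 0) →ₗ[R] N),
      (∀ i, Module.Projective R (P i)) ∧ Function.Surjective ε ∧
      LinearMap.range (d 0) = LinearMap.ker ε ∧
      (∀ i, LinearMap.range (d (i + 1)) = LinearMap.ker (d i)) ∧
      ∃ n : ℕ, ∀ i, n ≤ i → Subsingleton (P i) := by
  induction n generalizing N with
  | zero =>
    obtain ⟨h1, h2⟩ := h
    refine ⟨fun i => match i with
        | 0 => N
        | _ + 1 => ModuleCat.of R PUnit,
      fun i => match i with
        | 0 => 0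
        | _ + 1 => 0, LinearMap.id, ?_, Function.surjective_id, ?_, ?_, 1, ?_⟩
    · intro i
      match i with
      | 0 => exact (inferInstance : Module.Projective R N)
      | i + 1 => exact (inferInstance : Module.Projective R PUnit)
    · simp
    · intro i
      apply le_antisymm
      · rintro a -
        match i with
        | 0 => exact LinearMap.mem_ker.mpr rfl
        | i + 1 => exact LinearMap.mem_ker.mpr rfl
      · rintro a -
        match i with
        | 0 => exact ⟨0, Subsingleton.elim (α := PUnit) _ _⟩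
        | i + 1 => exact ⟨0, Subsingleton.elim (α := PUnit) _ _⟩
    · intro i hi
      match i with
      | 0 => omega
      | i + 1 => exact (inferInstance : Subsingleton PUnit)
  | succ n ih =>
    obtain ⟨m, g, hg, hK⟩ := h
    obtain ⟨P, d, ε, hP, hε, h0, hd, n', hn'⟩ := ih _ hK
    refine ⟨fun i => match i with
        | 0 => ModuleCat.of R (Fin m → R)
        | i + 1 => P i,
      fun i => match i with
        | 0 => (LinearMap.ker g).subtype ∘ₗ ε
        | i + 1 => d i, g, ?_, hg, ?_, ?_, n' + 1, ?_⟩
    · intro i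
      match i with
      | 0 => exact (inferInstance : Module.Projective R (Fin m → R))
      | i + 1 => exact hP i
    · change LinearMap.range ((LinearMap.ker g).subtype ∘ₗ ε) = LinearMap.ker g
      rw [LinearMap.range_comp, LinearMap.range_eq_top.mpr hε]
      simp
    · intro i
      match i with
      | 0 =>
        change LinearMap.range (d 0) = LinearMap.ker ((LinearMap.ker g).subtype ∘ₗ ε)
        rw [h0]
        apply le_antisymm
        · intro a ha
          rw [LinearMap.mem_ker] at ha ⊢
          rw [LinearMap.comp_apply, ha, map_zero]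
        · intro a ha
          rw [LinearMap.mem_ker, LinearMap.comp_apply] at ha
          exact Subtype.ext ha
      | i + 1 => exact hd i
    · intro i hi
      match i with
      | 0 => omega
      | i + 1 => exact hn' i (by omega)

section good

variable {R : Type} [CommRing R] {x y u v z : R}

theorem Good.fres [IsLocalRing R] [IsNoetherianRing R]
    (hxy : x * y = u * v) (hxz : x * z = 0) (hvz : v * z = 0)
    (hmem : x ∈ IsLocalRing.maximalIdeal R ∧ y ∈ IsLocalRing.maximalIdeal R ∧
      u ∈ IsLocalRing.maximalIdeal R ∧ v ∈ IsLocalRing.maximalIdeal R ∧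
      z ∈ IsLocalRing.maximalIdeal R)
    (hm : ∀ r ∈ IsLocalRing.maximalIdeal R,
      ∃ a b c d e, r = x * a + v * b + z * c + y * d + u * e)
    (hR : Good R x y u v z R) (h5 : C5 R x v z R) (h6 : C6 R x y v z R) (h7 : C7 R x y u v z R)
    (N : Type) [AddCommGroup N] [Module R N] [Module.Finite R N] (hN : Good R x y u v z N) :
    FRes R 3 (ModuleCat.of R N) := by
  obtain ⟨n0, g0, hg0⟩ := Module.Finite.exists_fin' R N
  have hF : ∀ n : ℕ, Good R x y u v z (Fin n → R) := fun n => hR.of_projective _
  have k1 : Good R x y u v z (LinearMap.ker g0) := Good.ker hxy hxz hvz (hF n0) hN g0 hg0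
  have k1' : C5 R x v z (LinearMap.ker g0) := (h5.pi _).ker g0
  obtain ⟨n1, g1, hg1⟩ := Module.Finite.exists_fin' R (LinearMap.ker g0)
  have k2 : Good R x y u v z (LinearMap.ker g1) := Good.ker hxy hxz hvz (hF n1) k1 g1 hg1
  have k2' : C5 R x v z (LinearMap.ker g1) := (h5.pi _).ker g1
  have k2'' : C6 R x y v z (LinearMap.ker g1) := C6.ker hxy hxz hvz k1 k1' (h6.pi _) g1 hg1
  obtain ⟨n2, g2, hg2⟩ := Module.Finite.exists_fin' R (LinearMap.ker g1)
  have k3 : Good R x y u v z (LinearMap.ker g2) := Good.ker hxy hxz hvz (hF n2) k2 g2 hg2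
  have k3' : C5 R x v z (LinearMap.ker g2) := (h5.pi _).ker g2
  have k3'' : C6 R x y v z (LinearMap.ker g2) := C6.ker hxy hxz hvz k2 k2' (h6.pi _) g2 hg2
  have k3''' : C7 R x y u v z (LinearMap.ker g2) :=
    C7.ker hxy hxz hvz k2 k2' k2'' (h7.pi _) g2 hg2
  exact ⟨n0, g0, hg0, n1, g1, hg1, n2, g2, hg2,
    Good.free hxy hxz hvz hmem hm k3 k3' k3'' k3''', inferInstance⟩

end good

end Pool.Agent.MP_2d5e52_al
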