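import Mathlib

/-!
# Good modules

Let `R` be a commutative ring with elements `x y u v z` such that `x*y = u*v`, `x*z = 0`, `v*z = 0`.
A module is *good* if four elementary exactness conditions hold.  Projective modules are good as soon
as `R` is, the kernel of a surjection between good modules is good, and hence all higher
`Tor (R/z) N` vanish for a good module `N`.
-/

namespace Pool.Agent.MP_2d5e52_al

/-- Four elementary exactness conditions. -/
structure Good (R : Type*) [CommRing R] (x y u v z : R) (N : Type*) [AddCommGroup N] [Module R N] :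
    Prop where
  h1 : ∀ n : N, z • n = 0 → ∃ a b : N, n = x • a + v • b
  h2 : ∀ a b : N, x • a + v • b = 0 →
    ∃ c d e f : N, a = y • c + v • d + z • e ∧ b = -(u • c) - x • d + z • f
  h3 : ∀ a b s t : N, y • a + v • b = z • s → u • a + x • b = z • t →
    ∃ c d e f : N, a = x • c + v • d + z • e ∧ b = -(u • c) - y • d + z • f
  h4 : ∀ a b s t : N, x • a + v • b = z • s → u • a + y • b = z • t →
    ∃ c d e f : N, a = y • c + v • d + z • e ∧ b = -(u • c) - x • d + z • f

variable {R : Type*} [CommRing R] {x y u v z : R}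

/-- A retract of a good module is good. -/
theorem Good.retract {N : Type*} [AddCommGroup N] [Module R N] {P : Type*} [AddCommGroup P]
    [Module R P] (hN : Good R x y u v z N) (i : P →ₗ[R] N) (p : N →ₗ[R] P)
    (hip : ∀ a, p (i a) = a) : Good R x y u v z P where
  h1 n hn := by
    obtain ⟨a, b, hab⟩ := hN.h1 (i n) (by rw [← map_smul, hn, map_zero])
    refine ⟨p a, p b, ?_⟩
    rw [← hip n, hab]; simp
  h2 a b hab := by
    obtain ⟨c, d, e, f, h1, h2⟩ := hN.h2 (i a) (i b) (by
      rw [← map_smul, ← map_smul, ← map_add, hab, map_zero])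
    refine ⟨p c, p d, p e, p f, ?_, ?_⟩
    · rw [← hip a, h1]; simp
    · rw [← hip b, h2]; simp
  h3 a b s t hs ht := by
    obtain ⟨c, d, e, f, h1, h2⟩ := hN.h3 (i a) (i b) (i s) (i t)
      (by simp only [← map_smul, ← map_add, hs]) (by simp only [← map_smul, ← map_add, ht])
    refine ⟨p c, p d, p e, p f, ?_, ?_⟩
    · rw [← hip a, h1]; simp
    · rw [← hip b, h2]; simp
  h4 a b s t hs ht := by
    obtain ⟨c, d, e, f, h1, h2⟩ := hN.h4 (i a) (i b) (i s) (i t)
      (by simp only [← map_smul, ← map_add, hs]) (by simp only [← map_smul, ← map_add, ht])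
    refine ⟨p c, p d, p e, p f, ?_, ?_⟩
    · rw [← hip a, h1]; simp
    · rw [← hip b, h2]; simp

/-- A pointwise choice principle for finitely supported functions. -/
theorem exists_finsupp4 {ι : Type*} (N : Type*) [AddCommGroup N]
    (Q : N → N → Prop) (S : N → N → N → N → N → N → Prop) (h0 : S 0 0 0 0 0 0)
    (hQS : ∀ a b, Q a b → ∃ c d e f, S a b c d e f) (a b : ι →₀ N) (hab : ∀ i, Q (a i) (b i)) :
    ∃ c d e f : ι →₀ N, ∀ i, S (a i) (b i) (c i) (d i) (e i) (f i) := by
  classical
  have key : ∀ p : N × N, ∃ q : N × N × N × N, (p = 0 → q = 0) ∧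
      (Q p.1 p.2 → S p.1 p.2 q.1 q.2.1 q.2.2.1 q.2.2.2) := by
    intro p
    by_cases hp : p = 0
    · subst hp; exact ⟨0, fun _ => rfl, fun _ => h0⟩
    · by_cases hQ : Q p.1 p.2
      · obtain ⟨c, d, e, f, h⟩ := hQS _ _ hQ
        exact ⟨(c, d, e, f), fun h' => absurd h' hp, fun _ => h⟩
      · exact ⟨0, fun _ => rfl, fun h' => absurd h' hQ⟩
  choose q hq0 hq using key
  have hq00 : q (0, 0) = 0 := hq0 0 rfl
  refine ⟨Finsupp.zipWith (fun s t => (q (s, t)).1) (by rw [hq00]; rfl) a b,
    Finsupp.zipWith (fun s t => (q (s, t)).2.1) (by rw [hq00]; rfl) a b,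
    Finsupp.zipWith (fun s t => (q (s, t)).2.2.1) (by rw [hq00]; rfl) a b,
    Finsupp.zipWith (fun s t => (q (s, t)).2.2.2) (by rw [hq00]; rfl) a b, fun i => ?_⟩
  simpa using hq (a i, b i) (hab i)

/-- Finitely supported functions with values in a good module form a good module. -/
theorem Good.finsupp {N : Type*} [AddCommGroup N] [Module R N] (hN : Good R x y u v z N)
    (ι : Type*) : Good R x y u v z (ι →₀ N) where
  h1 n hn := by
    obtain ⟨c, d, -, -, h⟩ := exists_finsupp4 (ι := ι) N (fun a _ => z • a = 0)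
      (fun a _ c d _ _ => a = x • c + v • d) (by simp)
      (fun a _ h => by obtain ⟨c, d, h⟩ := hN.h1 a h; exact ⟨c, d, 0, 0, h⟩) n 0
      (fun i => by simpa using DFunLike.congr_fun hn i)
    exact ⟨c, d, Finsupp.ext fun i => by simpa using h i⟩
  h2 a b hab := by
    obtain ⟨c, d, e, f, h⟩ := exists_finsupp4 (ι := ι) N (fun a b => x • a + v • b = 0)
      (fun a b c d e f => a = y • c + v • d + z • e ∧ b = -(u • c) - x • d + z • f) (by simp)
      (fun a b h => hN.h2 a b h) a b (fun i => by simpa using DFunLike.congr_fun hab i)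
    exact ⟨c, d, e, f, Finsupp.ext fun i => by simpa using (h i).1,
      Finsupp.ext fun i => by simpa using (h i).2⟩
  h3 a b s t hs ht := by
    obtain ⟨c, d, e, f, h⟩ := exists_finsupp4 (ι := ι) N
      (fun a b => (∃ s, y • a + v • b = z • s) ∧ ∃ t, u • a + x • b = z • t)
      (fun a b c d e f => a = x • c + v • d + z • e ∧ b = -(u • c) - y • d + z • f) (by simp)
      (fun a b h => by
        obtain ⟨⟨s, hs⟩, t, ht⟩ := h
        exact hN.h3 a b s t hs ht) a b
      (fun i => ⟨⟨s i, by simpa using DFunLike.congr_fun hs i⟩,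
        t i, by simpa using DFunLike.congr_fun ht i⟩)
    exact ⟨c, d, e, f, Finsupp.ext fun i => by simpa using (h i).1,
      Finsupp.ext fun i => by simpa using (h i).2⟩
  h4 a b s t hs ht := by
    obtain ⟨c, d, e, f, h⟩ := exists_finsupp4 (ι := ι) N
      (fun a b => (∃ s, x • a + v • b = z • s) ∧ ∃ t, u • a + y • b = z • t)
      (fun a b c d e f => a = y • c + v • d + z • e ∧ b = -(u • c) - x • d + z • f) (by simp)
      (fun a b h => by
        obtain ⟨⟨s, hs⟩, t, ht⟩ := h
        exact hN.h4 a b s t hs ht) a b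
      (fun i => ⟨⟨s i, by simpa using DFunLike.congr_fun hs i⟩,
        t i, by simpa using DFunLike.congr_fun ht i⟩)
    exact ⟨c, d, e, f, Finsupp.ext fun i => by simpa using (h i).1,
      Finsupp.ext fun i => by simpa using (h i).2⟩

/-- Projective modules are good if the ring is. -/
theorem Good.of_projective (hR : Good R x y u v z R) (P : Type*) [AddCommGroup P] [Module R P]
    [Module.Projective R P] : Good R x y u v z P := by
  obtain ⟨s, hs⟩ := Module.projective_def'.mp (‹Module.Projective R P›)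
  exact (hR.finsupp P).retract s (Finsupp.linearCombination R id)
    (fun a => LinearMap.congr_fun hs a)

/-- If `g : F → N` is surjective with kernel `K`, `N` good, then `K ∩ zF = zK`. -/
theorem Good.ker_inter {N : Type*} [AddCommGroup N] [Module R N] {F : Type*} [AddCommGroup F]
    [Module R F] (hxz : x * z = 0) (hvz : v * z = 0) (hN : Good R x y u v z N)
    (g : F →ₗ[R] N) (hg : Function.Surjective g) (e : F) (he : g (z • e) = 0) :
    ∃ k, g k = 0 ∧ z • e = z • k := by
  obtain ⟨a, b, hab⟩ := hN.h1 (g e) (by rw [← map_smul, he])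
  obtain ⟨A, rfl⟩ := hg a
  obtain ⟨B, rfl⟩ := hg b
  refine ⟨e - x • A - v • B, ?_, ?_⟩
  · simp [hab]
  · simp only [smul_sub, smul_smul, mul_comm z x, mul_comm z v, hxz, hvz, zero_smul, sub_zero]

section ker

variable {N : Type*} [AddCommGroup N] [Module R N] {F : Type*} [AddCommGroup F] [Module R F]

theorem Good.ker_aux (hxy : x * y = u * v) (hxz : x * z = 0) (hvz : v * z = 0)
    (hN : Good R x y u v z N)
    (g : F →ₗ[R] N) (hg : Function.Surjective g) (a b : LinearMap.ker g)
    (c d e f : F) (ha : (a : F) = y • c + v • d + z • e) (hb : (b : F) = -(u • c) - x • d + z • f) :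
    ∃ c d e f : LinearMap.ker g, a = y • c + v • d + z • e ∧ b = -(u • c) - x • d + z • f := by
  have ha' : g (a : F) = 0 := a.2
  have hb' : g (b : F) = 0 := b.2
  obtain ⟨p, q, r, s, hp, hq⟩ := hN.h3 (g c) (g d) (g (-e)) (g f) (by
    rw [ha] at ha'
    simp only [map_add, map_smul, map_neg] at ha' ⊢
    linear_combination (norm := module) ha') (by
    rw [hb] at hb'
    simp only [map_add, map_sub, map_smul, map_neg] at hb' ⊢
    linear_combination (norm := module) -hb')
  obtain ⟨P, rfl⟩ := hg p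
  obtain ⟨Q, rfl⟩ := hg q
  obtain ⟨S, rfl⟩ := hg r
  obtain ⟨T, rfl⟩ := hg s
  set k1 : F := c - (x • P + v • Q + z • S) with hk1
  set k2 : F := d - (-(u • P) - y • Q + z • T) with hk2
  have gk1 : g k1 = 0 := by simp [hk1, hp]
  have gk2 : g k2 = 0 := by simp [hk2, hq]
  have e1 : (a : F) - y • k1 - v • k2 = z • (y • S + e) := by
    rw [ha, hk1, hk2]
    linear_combination (norm := module) hxy • P + hvz • T
  have e2 : (b : F) + u • k1 + x • k2 = z • (f - u • S) := by
    rw [hb, hk1, hk2]
    linear_combination (norm := module) hxy • Q - hxz • T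
  obtain ⟨k3, gk3, h3⟩ := hN.ker_inter hxz hvz g hg (y • S + e) (by
    rw [← e1]; simp [gk1, gk2])
  obtain ⟨k4, gk4, h4⟩ := hN.ker_inter hxz hvz g hg (f - u • S) (by
    rw [← e2]; simp [gk1, gk2])
  refine ⟨⟨k1, gk1⟩, ⟨k2, gk2⟩, ⟨k3, gk3⟩, ⟨k4, gk4⟩, Subtype.ext ?_, Subtype.ext ?_⟩
  · simp only [Submodule.coe_add, Submodule.coe_smul]
    rw [← h3, ← e1]; module
  · simp only [Submodule.coe_add, Submodule.coe_smul, Submodule.coe_neg, Submodule.coe_sub]
    rw [← h4, ← e2]; module

/-- The kernel of a surjection between good modules is good. -/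
theorem Good.ker (hxy : x * y = u * v) (hxz : x * z = 0) (hvz : v * z = 0)
    (hF : Good R x y u v z F) (hN : Good R x y u v z N)
    (g : F →ₗ[R] N) (hg : Function.Surjective g) : Good R x y u v z (LinearMap.ker g) where
  h1 n hn := by
    obtain ⟨f1, f2, hf⟩ := hF.h1 (n : F) (by simpa using congrArg Subtype.val hn)
    obtain ⟨c, d, e, f, hc, hd⟩ := hN.h2 (g f1) (g f2) (by
      rw [← map_smul, ← map_smul, ← map_add, ← hf]; exact n.2)
    obtain ⟨C, rfl⟩ := hg c
    obtain ⟨D, rfl⟩ := hg d
    obtain ⟨E, rfl⟩ := hg e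
    obtain ⟨H, rfl⟩ := hg f
    refine ⟨⟨f1 - (y • C + v • D + z • E), by simp [hc]⟩,
      ⟨f2 - (-(u • C) - x • D + z • H), by simp [hd]⟩, ?_⟩
    apply Subtype.ext
    simp only [Submodule.coe_add, Submodule.coe_smul]
    rw [hf]
    linear_combination (norm := module) hxy • C + hxz • E + hvz • H
  h2 a b hab := by
    obtain ⟨c, d, e, f, ha, hb⟩ := hF.h2 (a : F) (b : F) (by simpa using congrArg Subtype.val hab)
    exact Good.ker_aux hxy hxz hvz hN g hg a b c d e f ha hb
  h3 a b s t hs ht := by
    obtain ⟨c, d, e, f, ha, hb⟩ := hF.h3 (a : F) (b : F) (s : F) (t : F)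
      (by simpa using congrArg Subtype.val hs) (by simpa using congrArg Subtype.val ht)
    have ha' : g (a : F) = 0 := a.2
    have hb' : g (b : F) = 0 := b.2
    obtain ⟨p, q, r, s, hp, hq⟩ := hN.h4 (g c) (g d) (g (-e)) (g f) (by
      rw [ha] at ha'
      simp only [map_add, map_smul, map_neg] at ha' ⊢
      linear_combination (norm := module) ha') (by
      rw [hb] at hb'
      simp only [map_add, map_sub, map_smul, map_neg] at hb' ⊢
      linear_combination (norm := module) -hb')
    obtain ⟨P, rfl⟩ := hg p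
    obtain ⟨Q, rfl⟩ := hg q
    obtain ⟨S, rfl⟩ := hg r
    obtain ⟨T, rfl⟩ := hg s
    set k1 : F := c - (y • P + v • Q + z • S) with hk1
    set k2 : F := d - (-(u • P) - x • Q + z • T) with hk2
    have gk1 : g k1 = 0 := by simp [hk1, hp]
    have gk2 : g k2 = 0 := by simp [hk2, hq]
    have e1 : (a : F) - x • k1 - v • k2 = z • e := by
      rw [ha, hk1, hk2]
      linear_combination (norm := module) hxy • P + hxz • S + hvz • T
    have e2 : (b : F) + u • k1 + y • k2 = z • (f - u • S - y • T) := by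
      rw [hb, hk1, hk2]
      linear_combination (norm := module) hxy • Q
    obtain ⟨k3, gk3, h3⟩ := hN.ker_inter hxz hvz g hg e (by
      rw [← e1]; simp [gk1, gk2])
    obtain ⟨k4, gk4, h4⟩ := hN.ker_inter hxz hvz g hg (f - u • S - y • T) (by
      rw [← e2]; simp [gk1, gk2])
    refine ⟨⟨k1, gk1⟩, ⟨k2, gk2⟩, ⟨k3, gk3⟩, ⟨k4, gk4⟩, Subtype.ext ?_, Subtype.ext ?_⟩
    · simp only [Submodule.coe_add, Submodule.coe_smul]
      rw [← h3, ← e1]; module
    · simp only [Submodule.coe_add, Submodule.coe_smul, Submodule.coe_neg, Submodule.coe_sub]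
      rw [← h4, ← e2]; module
  h4 a b s t hs ht := by
    obtain ⟨c, d, e, f, ha, hb⟩ := hF.h4 (a : F) (b : F) (s : F) (t : F)
      (by simpa using congrArg Subtype.val hs) (by simpa using congrArg Subtype.val ht)
    exact Good.ker_aux hxy hxz hvz hN g hg a b c d e f ha hb

end ker

end Pool.Agent.MP_2d5e52_al
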