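import Pool.Agent.MP_2d5e52_al.NFinPd

namespace Pool.Agent.MP_2d5e52_al

/-- A finite module of dimension at most zero over a Noetherian ring has finite length. -/
theorem isFiniteLength_of_supportDim_le_zero {R : Type} [CommRing R] [IsNoetherianRing R]
    {W : Type} [AddCommGroup W] [Module R W] [Module.Finite R W]
    (h : Module.supportDim R W ≤ 0) : IsFiniteLength R W := by
  rw [Module.supportDim_eq_ringKrullDim_quotient_annihilator] at h
  rw [isFiniteLength_iff_isNoetherian_isArtinian]
  refine ⟨inferInstance, ?_⟩
  have hA : IsArtinianRing (R ⧸ Module.annihilator R W) := by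
    rw [isArtinianRing_iff_krullDimLE_zero, Ring.KrullDimLE, Order.krullDimLE_iff]
    exact h
  let _ : Module (R ⧸ Module.annihilator R W) W := Module.quotientAnnihilator
  have : IsScalarTower R (R ⧸ Module.annihilator R W) W := inferInstance
  have : Module.Finite (R ⧸ Module.annihilator R W) W :=
    Module.Finite.of_restrictScalars_finite R _ W
  have : IsArtinian (R ⧸ Module.annihilator R W) W := isArtinian_of_fg_of_artinian'
  exact isArtinian_of_surjective_algebraMap
    (Ideal.Quotient.mk_surjective (I := Module.annihilator R W))

/-- A regular sequence in the annihilator of `N` has length at most `dim R - dim N`. -/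
theorem length_add_supportDim_le {R : Type} [CommRing R] [IsNoetherianRing R] [IsLocalRing R]
    {N : Type} [AddCommGroup N] [Module R N] [Module.Finite R N] (rs : List R)
    (h : ∀ r ∈ rs, r ∈ Module.annihilator R N) (hrs : RingTheory.Sequence.IsRegular R rs) :
    Module.supportDim R N + rs.length ≤ ringKrullDim R := by
  have h1 := Module.supportDim_add_length_eq_supportDim_of_isRegular rs hrs
  rw [Module.supportDim_self_eq_ringKrullDim] at h1
  rw [← h1]
  have hle : Ideal.ofList rs • (⊤ : Submodule R R) ≤ Module.annihilator R N := by
    rw [Submodule.smul_le]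
    intro r hr n _
    have : r ∈ Module.annihilator R N := (Ideal.span_le.mpr (fun r hr => h r hr) : _) hr
    exact Ideal.mul_mem_right _ _ this
  have h2 : Module.supportDim R (R ⧸ Module.annihilator R N) ≤
      Module.supportDim R (R ⧸ Ideal.ofList rs • (⊤ : Submodule R R)) :=
    Module.supportDim_le_of_surjective (Submodule.factor hle) (Submodule.factor_surjective hle)
  rw [Module.supportDim_quotient_eq_ringKrullDim,
    ← Module.supportDim_eq_ringKrullDim_quotient_annihilator] at h2
  exact add_le_add h2 le_rfl

end Pool.Agent.MP_2d5e52_al
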