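import Pool.Agent.MP_2d5e52_al.FinPd

namespace Pool.Agent.MP_2d5e52_al

open MvPolynomial

variable (k : Type) [Field k]

/-- substitution `x, v, z ↦ 0` -/
noncomputable def sub3 : S k →ₐ[k] S k := aeval ![0, X 1, X 2, 0, 0]

/-- substitution `x, v, z, y ↦ 0` -/
noncomputable def sub4 : S k →ₐ[k] S k := aeval ![0, 0, X 2, 0, 0]

theorem sub3_J (a : S k) (ha : a ∈ J k) : sub3 k a = 0 := by
  have : J k ≤ RingHom.ker (sub3 k) := by
    rw [J, Ideal.span_le]
    rintro s (rfl | rfl | rfl) <;> simp [sub3, RingHom.mem_ker]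
  exact this ha

theorem sub4_J (a : S k) (ha : a ∈ J k) : sub4 k a = 0 := by
  have : J k ≤ RingHom.ker (sub4 k) := by
    rw [J, Ideal.span_le]
    rintro s (rfl | rfl | rfl) <;> simp [sub4, RingHom.mem_ker]
  exact this ha

theorem sub_sub3_mem (a : S k) : ∃ e f g, a = sub3 k a + (X 0 * e + X 3 * f + X 4 * g) := by
  have h : a - sub3 k a ∈ Ideal.span {(X 0 : S k), X 3, X 4} := by
    rw [← Ideal.Quotient.eq]
    have : (Ideal.Quotient.mkₐ k (Ideal.span {(X 0 : S k), X 3, X 4})) =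
        (Ideal.Quotient.mkₐ k (Ideal.span {(X 0 : S k), X 3, X 4})).comp (sub3 k) := by
      apply MvPolynomial.algHom_ext
      intro i
      fin_cases i <;> simp [sub3, Ideal.Quotient.eq_zero_iff_mem]
      · exact Ideal.subset_span (by simp)
      · exact Ideal.subset_span (by simp)
      · exact Ideal.subset_span (by simp)
    exact AlgHom.congr_fun this a
  obtain ⟨e, w, hw, he⟩ := Ideal.mem_span_insert.mp h
  obtain ⟨f, g, hf⟩ := Ideal.mem_span_pair.mp hw
  exact ⟨e, f, g, by linear_combination he - hf⟩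

theorem sub_sub4_mem (a : S k) :
    ∃ e f g h, a = sub4 k a + (X 0 * e + X 3 * f + X 4 * g + X 1 * h) := by
  have h : a - sub4 k a ∈ Ideal.span {(X 1 : S k), X 0, X 3, X 4} := by
    rw [← Ideal.Quotient.eq]
    have : (Ideal.Quotient.mkₐ k (Ideal.span {(X 1 : S k), X 0, X 3, X 4})) =
        (Ideal.Quotient.mkₐ k (Ideal.span {(X 1 : S k), X 0, X 3, X 4})).comp (sub4 k) := by
      apply MvPolynomial.algHom_ext
      intro i
      fin_cases i <;> simp [sub4, Ideal.Quotient.eq_zero_iff_mem]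
      · exact Ideal.subset_span (by simp)
      · exact Ideal.subset_span (by simp)
      · exact Ideal.subset_span (by simp)
      · exact Ideal.subset_span (by simp)
    exact AlgHom.congr_fun this a
  obtain ⟨g', w', hw', he'⟩ := Ideal.mem_span_insert.mp h
  obtain ⟨e, w, hw, he⟩ := Ideal.mem_span_insert.mp hw'
  obtain ⟨f, g, hf⟩ := Ideal.mem_span_pair.mp hw
  exact ⟨e, f, g, g', by linear_combination he' + he - hf⟩

theorem R0_C5 : C5 (R0 k) (Ideal.Quotient.mk (J k) (X 0)) (Ideal.Quotient.mk (J k) (X 3))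
    (Ideal.Quotient.mk (J k) (X 4)) (R0 k) := by
  intro a b c e
  obtain ⟨a, rfl⟩ := Ideal.Quotient.mk_surjective a
  obtain ⟨b, rfl⟩ := Ideal.Quotient.mk_surjective b
  obtain ⟨c, rfl⟩ := Ideal.Quotient.mk_surjective c
  rw [← sub_eq_zero] at e
  simp only [smul_eq_mul, ← map_mul, ← map_add, ← map_sub, Ideal.Quotient.eq_zero_iff_mem] at e ⊢
  have h := pixv_J k _ e
  have h0 : pixv k (X 0) = 0 := by simp [pixv]
  have h3 : pixv k (X 3) = 0 := by simp [pixv]
  have h4 : pixv k (X 4) = X 4 := by simp [pixv]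
  rw [map_sub, map_add, map_mul, map_mul, map_mul, h0, h3, h4, zero_mul, zero_mul, zero_add,
    zero_sub, neg_eq_zero] at h
  rcases mul_eq_zero.mp h with h' | h'
  · exact absurd h' (X_ne_zero _)
  · obtain ⟨e, f, hef⟩ := sub_pixv_mem k c
    rw [h', zero_add] at hef
    rw [hef]
    have e1 : (X 4 : S k) * (X 0 * e + X 3 * f) = (X 0 * X 4) * e + (X 3 * X 4) * f := by ring
    rw [e1]
    exact Ideal.add_mem _ (Ideal.mul_mem_right _ _ (Ideal.subset_span (by simp)))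
      (Ideal.mul_mem_right _ _ (Ideal.subset_span (by simp)))

theorem R0_C6 : C6 (R0 k) (Ideal.Quotient.mk (J k) (X 0)) (Ideal.Quotient.mk (J k) (X 1))
    (Ideal.Quotient.mk (J k) (X 3)) (Ideal.Quotient.mk (J k) (X 4)) (R0 k) := by
  intro n a b c e
  obtain ⟨n, rfl⟩ := Ideal.Quotient.mk_surjective n
  obtain ⟨a, rfl⟩ := Ideal.Quotient.mk_surjective a
  obtain ⟨b, rfl⟩ := Ideal.Quotient.mk_surjective b
  obtain ⟨c, rfl⟩ := Ideal.Quotient.mk_surjective c
  rw [← sub_eq_zero] at e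
  simp only [smul_eq_mul, ← map_mul, ← map_add, ← map_sub, Ideal.Quotient.eq_zero_iff_mem] at e
  have h := sub3_J k _ e
  have h0 : sub3 k (X 0) = 0 := by simp [sub3]
  have h1 : sub3 k (X 1) = X 1 := by simp [sub3]
  have h3 : sub3 k (X 3) = 0 := by simp [sub3]
  have h4 : sub3 k (X 4) = 0 := by simp [sub3]
  simp only [map_sub, map_add, map_mul, h0, h1, h3, h4, zero_mul, add_zero, sub_zero] at h
  rcases mul_eq_zero.mp h with h' | h'
  · exact absurd h' (X_ne_zero _)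
  · obtain ⟨e, f, g, hef⟩ := sub_sub3_mem k n
    rw [h', zero_add] at hef
    refine ⟨Ideal.Quotient.mk _ e, Ideal.Quotient.mk _ f, Ideal.Quotient.mk _ g, ?_⟩
    simp only [smul_eq_mul, ← map_mul, ← map_add]
    rw [← hef]

theorem R0_C7 : C7 (R0 k) (Ideal.Quotient.mk (J k) (X 0)) (Ideal.Quotient.mk (J k) (X 1))
    (Ideal.Quotient.mk (J k) (X 2)) (Ideal.Quotient.mk (J k) (X 3))
    (Ideal.Quotient.mk (J k) (X 4)) (R0 k) := by
  intro n a b c d e
  obtain ⟨n, rfl⟩ := Ideal.Quotient.mk_surjective n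
  obtain ⟨a, rfl⟩ := Ideal.Quotient.mk_surjective a
  obtain ⟨b, rfl⟩ := Ideal.Quotient.mk_surjective b
  obtain ⟨c, rfl⟩ := Ideal.Quotient.mk_surjective c
  obtain ⟨d, rfl⟩ := Ideal.Quotient.mk_surjective d
  rw [← sub_eq_zero] at e
  simp only [smul_eq_mul, ← map_mul, ← map_add, ← map_sub, Ideal.Quotient.eq_zero_iff_mem] at e
  have h := sub4_J k _ e
  have h0 : sub4 k (X 0) = 0 := by simp [sub4]
  have h1 : sub4 k (X 1) = 0 := by simp [sub4]
  have h2 : sub4 k (X 2) = X 2 := by simp [sub4]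
  have h3 : sub4 k (X 3) = 0 := by simp [sub4]
  have h4 : sub4 k (X 4) = 0 := by simp [sub4]
  simp only [map_sub, map_add, map_mul, h0, h1, h2, h3, h4, zero_mul, add_zero, sub_zero] at h
  rcases mul_eq_zero.mp h with h' | h'
  · exact absurd h' (X_ne_zero _)
  · obtain ⟨e, f, g, w, hef⟩ := sub_sub4_mem k n
    rw [h', zero_add] at hef
    refine ⟨Ideal.Quotient.mk _ e, Ideal.Quotient.mk _ f, Ideal.Quotient.mk _ g,
      Ideal.Quotient.mk _ w, ?_⟩
    simp only [smul_eq_mul, ← map_mul, ← map_add]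
    rw [← hef]

theorem Rk_C5 : C5 (Rk k) (el k 0) (el k 3) (el k 4) (Rk k) :=
  (C5.localize (m0 k).primeCompl (Algebra.linearMap (R0 k) (Rk k)) (R0_C5 k)).algebraMap

theorem Rk_C6 : C6 (Rk k) (el k 0) (el k 1) (el k 3) (el k 4) (Rk k) :=
  (C6.localize (m0 k).primeCompl (Algebra.linearMap (R0 k) (Rk k)) (R0_C6 k)).algebraMap

theorem Rk_C7 : C7 (Rk k) (el k 0) (el k 1) (el k 2) (el k 3) (el k 4) (Rk k) :=
  (C7.localize (m0 k).primeCompl (Algebra.linearMap (R0 k) (Rk k)) (R0_C7 k)).algebraMap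

theorem max_gen (r : Rk k) (hr : r ∈ IsLocalRing.maximalIdeal (Rk k)) :
    ∃ a b c d e, r = el k 0 * a + el k 3 * b + el k 4 * c + el k 1 * d + el k 2 * e := by
  have h : IsLocalRing.maximalIdeal (Rk k) ≤
      Ideal.span {el k 0, el k 3, el k 4, el k 1, el k 2} := by
    apply maximalIdeal_le
    apply el_ind <;> exact Ideal.subset_span (by simp)
  have h1 := h hr
  obtain ⟨a, w, hw, h1⟩ := Ideal.mem_span_insert.mp h1
  obtain ⟨b, w', hw', h2⟩ := Ideal.mem_span_insert.mp hw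
  obtain ⟨c, w'', hw'', h3⟩ := Ideal.mem_span_insert.mp hw'
  obtain ⟨d, e, h4⟩ := Ideal.mem_span_pair.mp hw''
  exact ⟨a, b, c, d, e, by rw [h1, h2, h3, ← h4]; ring⟩

theorem N_fres : FRes (Rk k) 3 (ModuleCat.of (Rk k) (N k)) :=
  Good.fres (el_rel1 k) (el_rel2 k) (el_rel3 k)
    ⟨el_mem k 0, el_mem k 1, el_mem k 2, el_mem k 3, el_mem k 4⟩ (max_gen k) (Rk_good k)
    (Rk_C5 k) (Rk_C6 k) (Rk_C7 k) (N k) (N_good k)

end Pool.Agent.MP_2d5e52_al
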