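import Pool.Agent.MP_2d5e52_al.Good

/-!
# Good modules over the local ring have projective dimension at most three
-/

namespace Pool.Agent.MP_2d5e52_al

variable {R : Type*} [CommRing R] {x y u v z : R}

/-- `(x, v) K ∩ z K = 0`. -/
def C5 (R : Type*) [CommRing R] (x v z : R) (K : Type*) [AddCommGroup K] [Module R K] : Prop :=
  ∀ a b c : K, x • a + v • b = z • c → z • c = 0

/-- `y` is regular on `K / (x, v, z) K`. -/
def C6 (R : Type*) [CommRing R] (x y v z : R) (K : Type*) [AddCommGroup K] [Module R K] : Prop :=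
  ∀ n a b c : K, y • n = x • a + v • b + z • c → ∃ a b c : K, n = x • a + v • b + z • c

/-- `u` is regular on `K / (x, v, z, y) K`. -/
def C7 (R : Type*) [CommRing R] (x y u v z : R) (K : Type*) [AddCommGroup K] [Module R K] : Prop :=
  ∀ n a b c d : K, u • n = x • a + v • b + z • c + y • d →
    ∃ a b c d : K, n = x • a + v • b + z • c + y • d

section pi

variable {N : Type*} [AddCommGroup N] [Module R N]

theorem C5.pi (h : C5 R x v z N) (ι : Type*) : C5 R x v z (ι → N) := fun a b c e =>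
  funext fun i => h (a i) (b i) (c i) (congrFun e i)

theorem C6.pi (h : C6 R x y v z N) (ι : Type*) : C6 R x y v z (ι → N) := fun n a b c e => by
  choose a b c hh using fun i => h (n i) (a i) (b i) (c i) (congrFun e i)
  exact ⟨a, b, c, funext hh⟩

theorem C7.pi (h : C7 R x y u v z N) (ι : Type*) : C7 R x y u v z (ι → N) :=
  fun n a b c d e => by
  choose a b c d hh using fun i => h (n i) (a i) (b i) (c i) (d i) (congrFun e i)
  exact ⟨a, b, c, d, funext hh⟩

end pi

section ker

variable {N : Type*} [AddCommGroup N] [Module R N] {F : Type*} [AddCommGroup F] [Module R F]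

theorem C5.ker (h : C5 R x v z F) (g : F →ₗ[R] N) : C5 R x v z (LinearMap.ker g) := by
  intro a b c e
  apply Subtype.ext
  exact h a b c (congrArg Subtype.val e)

/-- `ker g ∩ (x, v, z) F = (x, v, z) ker g` -/
theorem S2 (hxy : x * y = u * v) (hxz : x * z = 0) (hvz : v * z = 0)
    (hN : Good R x y u v z N) (h5 : C5 R x v z N)
    (g : F →ₗ[R] N) (hg : Function.Surjective g) (a b c : F)
    (h : g (x • a + v • b + z • c) = 0) :
    ∃ a' b' c' : F, g a' = 0 ∧ g b' = 0 ∧ g c' = 0 ∧
      x • a + v • b + z • c = x • a' + v • b' + z • c' := by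
  simp only [map_add, map_smul] at h
  have h0 : z • g (-c) = 0 := h5 (g a) (g b) (g (-c)) (by
    rw [map_neg, smul_neg]; exact eq_neg_of_add_eq_zero_left h)
  have h1 : z • g c = 0 := by rw [map_neg, smul_neg, neg_eq_zero] at h0; exact h0
  rw [h1, add_zero] at h
  obtain ⟨p, q, r, s, hp, hq⟩ := hN.h2 (g a) (g b) h
  obtain ⟨P, rfl⟩ := hg p
  obtain ⟨Q, rfl⟩ := hg q
  obtain ⟨S, rfl⟩ := hg r
  obtain ⟨T, rfl⟩ := hg s
  obtain ⟨k, hk, hk'⟩ := hN.ker_inter hxz hvz g hg c (by rw [map_smul, h1])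
  refine ⟨a - (y • P + v • Q + z • S), b - (-(u • P) - x • Q + z • T), k, by simp [hp],
    by simp [hq], hk, ?_⟩
  rw [← hk']
  linear_combination (norm := module) hxy • P + hxz • S + hvz • T

theorem C6.ker (hxy : x * y = u * v) (hxz : x * z = 0) (hvz : v * z = 0)
    (hN : Good R x y u v z N) (h5 : C5 R x v z N) (h6 : C6 R x y v z F)
    (g : F →ₗ[R] N) (hg : Function.Surjective g) : C6 R x y v z (LinearMap.ker g) := by
  intro n a b c e
  obtain ⟨A, B, C, hn⟩ := h6 n a b c (congrArg Subtype.val e)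
  obtain ⟨A', B', C', hA, hB, hC, h⟩ := S2 hxy hxz hvz hN h5 g hg A B C (by
    rw [← hn]; exact n.2)
  exact ⟨⟨A', hA⟩, ⟨B', hB⟩, ⟨C', hC⟩, Subtype.ext (hn.trans h)⟩

/-- `ker g ∩ (x, v, z, y) F = (x, v, z, y) ker g` -/
theorem S3 (hxy : x * y = u * v) (hxz : x * z = 0) (hvz : v * z = 0)
    (hN : Good R x y u v z N) (h5 : C5 R x v z N) (h6 : C6 R x y v z N)
    (g : F →ₗ[R] N) (hg : Function.Surjective g) (a b c d : F)
    (h : g (x • a + v • b + z • c + y • d) = 0) :
    ∃ a' b' c' d' : F, g a' = 0 ∧ g b' = 0 ∧ g c' = 0 ∧ g d' = 0 ∧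
      x • a + v • b + z • c + y • d = x • a' + v • b' + z • c' + y • d' := by
  obtain ⟨p, q, r, hd⟩ := h6 (g d) (g (-a)) (g (-b)) (g (-c)) (by
    simp only [map_add, map_smul, map_neg] at h ⊢
    linear_combination (norm := module) h)
  obtain ⟨P, rfl⟩ := hg p
  obtain ⟨Q, rfl⟩ := hg q
  obtain ⟨S, rfl⟩ := hg r
  have hk : g (d - (x • P + v • Q + z • S)) = 0 := by simp [hd]
  obtain ⟨a', b', c', ha', hb', hc', h'⟩ := S2 hxy hxz hvz hN h5 g hg (a + y • P) (b + y • Q)
    (c + y • S) (by
      have e : x • (a + y • P) + v • (b + y • Q) + z • (c + y • S) =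
          (x • a + v • b + z • c + y • d) - y • (d - (x • P + v • Q + z • S)) := by module
      rw [e, map_sub, h, map_smul, hk, smul_zero, sub_zero])
  refine ⟨a', b', c', d - (x • P + v • Q + z • S), ha', hb', hc', hk, ?_⟩
  rw [← h']; module

theorem C7.ker (hxy : x * y = u * v) (hxz : x * z = 0) (hvz : v * z = 0)
    (hN : Good R x y u v z N) (h5 : C5 R x v z N) (h6 : C6 R x y v z N) (h7 : C7 R x y u v z F)
    (g : F →ₗ[R] N) (hg : Function.Surjective g) : C7 R x y u v z (LinearMap.ker g) := by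
  intro n a b c d e
  obtain ⟨A, B, C, D, hn⟩ := h7 n a b c d (congrArg Subtype.val e)
  obtain ⟨A', B', C', D', hA, hB, hC, hD, h⟩ := S3 hxy hxz hvz hN h5 h6 g hg A B C D (by
    rw [← hn]; exact n.2)
  exact ⟨⟨A', hA⟩, ⟨B', hB⟩, ⟨C', hC⟩, ⟨D', hD⟩, Subtype.ext (hn.trans h)⟩

/-- `ker g ∩ (x, v, z, y, u) F = (x, v, z, y, u) ker g` -/
theorem S4 (hxy : x * y = u * v) (hxz : x * z = 0) (hvz : v * z = 0)
    (hN : Good R x y u v z N) (h5 : C5 R x v z N) (h6 : C6 R x y v z N) (h7 : C7 R x y u v z N)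
    (g : F →ₗ[R] N) (hg : Function.Surjective g) (a b c d e : F)
    (h : g (x • a + v • b + z • c + y • d + u • e) = 0) :
    ∃ a' b' c' d' e' : F, g a' = 0 ∧ g b' = 0 ∧ g c' = 0 ∧ g d' = 0 ∧ g e' = 0 ∧
      x • a + v • b + z • c + y • d + u • e =
        x • a' + v • b' + z • c' + y • d' + u • e' := by
  obtain ⟨p, q, r, s, hd⟩ := h7 (g e) (g (-a)) (g (-b)) (g (-c)) (g (-d)) (by
    simp only [map_add, map_smul, map_neg] at h ⊢
    linear_combination (norm := module) h)
  obtain ⟨P, rfl⟩ := hg p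
  obtain ⟨Q, rfl⟩ := hg q
  obtain ⟨S, rfl⟩ := hg r
  obtain ⟨T, rfl⟩ := hg s
  have hk : g (e - (x • P + v • Q + z • S + y • T)) = 0 := by simp [hd]
  obtain ⟨a', b', c', d', ha', hb', hc', hd', h'⟩ := S3 hxy hxz hvz hN h5 h6 g hg
    (a + u • P) (b + u • Q) (c + u • S) (d + u • T) (by
      have e : x • (a + u • P) + v • (b + u • Q) + z • (c + u • S) + y • (d + u • T) =
          (x • a + v • b + z • c + y • d + u • e) -
            u • (e - (x • P + v • Q + z • S + y • T)) := by module
      rw [e, map_sub, h, map_smul, hk, smul_zero, sub_zero])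
  refine ⟨a', b', c', d', e - (x • P + v • Q + z • S + y • T), ha', hb', hc', hd', hk, ?_⟩
  rw [← h']; module

end ker

section local_ring

open IsLocalRing TensorProduct

variable [IsLocalRing R]

theorem residue_tensor_surj (P : Type*) [AddCommGroup P] [Module R P]
    (t : ResidueField R ⊗[R] P) : ∃ p : P, t = (1 : ResidueField R) ⊗ₜ[R] p := by
  induction t using TensorProduct.induction_on with
  | zero => exact ⟨0, by simp⟩
  | tmul a p =>
    obtain ⟨r, rfl⟩ := Ideal.Quotient.mk_surjective a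
    refine ⟨r • p, ?_⟩
    rw [← TensorProduct.smul_tmul]
    congr 1
    rw [Algebra.smul_def, mul_one]; rfl
  | add a b ha hb =>
    obtain ⟨p, rfl⟩ := ha
    obtain ⟨q, rfl⟩ := hb
    exact ⟨p + q, by rw [TensorProduct.tmul_add]⟩

theorem residue_tensor_smul (P : Type*) [AddCommGroup P] [Module R P] (r : R)
    (hr : r ∈ maximalIdeal R) (p : P) : (1 : ResidueField R) ⊗ₜ[R] (r • p) = 0 := by
  rw [← TensorProduct.smul_tmul]
  have : r • (1 : ResidueField R) = 0 := by
    rw [Algebra.smul_def, mul_one]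
    exact Ideal.Quotient.eq_zero_iff_mem.mpr hr
  rw [this, TensorProduct.zero_tmul]

omit [IsLocalRing R] in
theorem quot_tensor_mem (I : Ideal R) (P : Type*) [AddCommGroup P] [Module R P] (p : P)
    (h : (1 : R ⧸ I) ⊗ₜ[R] p = 0) : p ∈ I • (⊤ : Submodule R P) := by
  have h2 := congrArg (TensorProduct.quotTensorEquivQuotSMul P I) h
  have h3 : (TensorProduct.quotTensorEquivQuotSMul P I)
      ((1 : R ⧸ I) ⊗ₜ[R] p) = Submodule.Quotient.mk p := by
    have := TensorProduct.quotTensorEquivQuotSMul_mk_tmul (M := P) I 1 p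
    rw [one_smul] at this
    exact this
  rw [h3, map_zero, Submodule.Quotient.mk_eq_zero] at h2
  exact h2

omit [IsLocalRing R] in
theorem mem_smul_top_five (I : Ideal R)
    (hm : ∀ r ∈ I, ∃ a b c d e, r = x * a + v * b + z * c + y * d + u * e)
    (P : Type*) [AddCommGroup P] [Module R P] (p : P) (h : p ∈ I • (⊤ : Submodule R P)) :
    ∃ a b c d e : P, p = x • a + v • b + z • c + y • d + u • e := by
  refine Submodule.smul_induction_on h ?_ ?_
  · intro r hr n _
    obtain ⟨a, b, c, d, e, rfl⟩ := hm r hr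
    exact ⟨a • n, b • n, c • n, d • n, e • n, by module⟩
  · intro p q hp hq
    obtain ⟨a, b, c, d, e, rfl⟩ := hp
    obtain ⟨a', b', c', d', e', rfl⟩ := hq
    exact ⟨a + a', b + b', c + c', d + d', e + e', by module⟩

/-- The local criterion for freeness. -/
theorem Good.free [IsNoetherianRing R] (hxy : x * y = u * v) (hxz : x * z = 0) (hvz : v * z = 0)
    (hmem : x ∈ maximalIdeal R ∧ y ∈ maximalIdeal R ∧ u ∈ maximalIdeal R ∧ v ∈ maximalIdeal R ∧
      z ∈ maximalIdeal R)
    (hm : ∀ r ∈ maximalIdeal R, ∃ a b c d e, r = x * a + v * b + z * c + y * d + u * e)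
    {K : Type*} [AddCommGroup K] [Module R K] [Module.Finite R K]
    (hK : Good R x y u v z K) (h5 : C5 R x v z K) (h6 : C6 R x y v z K) (h7 : C7 R x y u v z K) :
    Module.Free R K := by
  obtain ⟨n, g, hg⟩ := Module.Finite.exists_fin' R K
  refine Module.free_of_lTensor_residueField_injective (LinearMap.ker g).subtype g hg
    (LinearMap.exact_subtype_ker_map g) ?_
  rw [injective_iff_map_eq_zero]
  intro t ht
  obtain ⟨p, rfl⟩ := residue_tensor_surj _ t
  rw [LinearMap.lTensor_tmul] at ht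
  have h1 : ((LinearMap.ker g).subtype p) ∈ maximalIdeal R • (⊤ : Submodule R (Fin n → R)) :=
    quot_tensor_mem (maximalIdeal R) _ _ ht
  obtain ⟨a, b, c, d, e, h⟩ := mem_smul_top_five _ hm _ _ h1
  obtain ⟨a', b', c', d', e', ha, hb, hc, hd, he, h'⟩ := S4 hxy hxz hvz hK h5 h6 h7 g hg a b c d e
    (by rw [← h]; exact p.2)
  have hp : p = x • (⟨a', ha⟩ : LinearMap.ker g) + v • (⟨b', hb⟩ : LinearMap.ker g) +
      z • (⟨c', hc⟩ : LinearMap.ker g) + y • (⟨d', hd⟩ : LinearMap.ker g) +
      u • (⟨e', he⟩ : LinearMap.ker g) := Subtype.ext (h.trans h')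
  rw [hp]
  simp only [TensorProduct.tmul_add]
  rw [residue_tensor_smul _ x hmem.1, residue_tensor_smul _ v hmem.2.2.2.1,
    residue_tensor_smul _ z hmem.2.2.2.2, residue_tensor_smul _ y hmem.2.1,
    residue_tensor_smul _ u hmem.2.2.1]
  simp

end local_ring

section localize

variable (Sm : Submonoid R) {E : Type*} [AddCommGroup E] [Module R E] {N : Type*} [AddCommGroup N]
  [Module R N] (f : E →ₗ[R] N) [IsLocalizedModule Sm f]

theorem common_den5 (a b c d e : N) : ∃ (w : Sm) (A B C D F : E),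
    (w : R) • a = f A ∧ (w : R) • b = f B ∧ (w : R) • c = f C ∧ (w : R) • d = f D ∧
    (w : R) • e = f F := by
  obtain ⟨⟨A, s1⟩, hA⟩ := IsLocalizedModule.surj Sm f a
  obtain ⟨⟨B, s2⟩, hB⟩ := IsLocalizedModule.surj Sm f b
  obtain ⟨⟨C, s3⟩, hC⟩ := IsLocalizedModule.surj Sm f c
  obtain ⟨⟨D, s4⟩, hD⟩ := IsLocalizedModule.surj Sm f d
  obtain ⟨⟨F, s5⟩, hF⟩ := IsLocalizedModule.surj Sm f e
  simp only [Submonoid.smul_def] at hA hB hC hD hF
  refine ⟨s1 * s2 * s3 * s4 * s5, ((s2 : R) * s3 * s4 * s5) • A, ((s1 : R) * s3 * s4 * s5) • B,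
    ((s1 : R) * s2 * s4 * s5) • C, ((s1 : R) * s2 * s3 * s5) • D, ((s1 : R) * s2 * s3 * s4) • F,
    ?_, ?_, ?_, ?_, ?_⟩ <;>
  simp only [map_smul, ← hA, ← hB, ← hC, ← hD, ← hF, smul_smul, Submonoid.coe_mul] <;>
  congr 1 <;> ring

include Sm f in
theorem C5.localize (h : C5 R x v z E) : C5 R x v z N := by
  intro a b c e
  obtain ⟨w, A, B, C, _, _, hA, hB, hC, -, -⟩ := common_den5 Sm f a b c 0 0
  have h0 : f (x • A + v • B - z • C) = 0 := by
    rw [map_sub, map_add, map_smul, map_smul, map_smul, ← hA, ← hB, ← hC, smul_comm x,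
      smul_comm v, smul_comm z, ← smul_add, e, sub_self]
  obtain ⟨s, hs⟩ := (IsLocalizedModule.eq_zero_iff Sm f).mp h0
  simp only [Submonoid.smul_def] at hs
  have h1 := h ((s : R) • A) ((s : R) • B) ((s : R) • C) (by
    linear_combination (norm := module) hs)
  apply IsLocalizedModule.smul_injective f (s * w)
  have h2 := congrArg f h1
  rw [map_smul, map_smul, ← hC, map_zero] at h2
  simp only [Submonoid.smul_def, Submonoid.coe_mul]
  rw [smul_zero, ← h2]; module

include Sm f in
theorem C6.localize (h : C6 R x y v z E) : C6 R x y v z N := by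
  intro n a b c e
  obtain ⟨w, A, B, C, D, _, hA, hB, hC, hD, -⟩ := common_den5 Sm f a b c n 0
  have h0 : f (x • A + v • B + z • C - y • D) = 0 := by
    rw [map_sub, map_add, map_add, map_smul, map_smul, map_smul, map_smul, ← hA, ← hB, ← hC, ← hD,
      smul_comm x, smul_comm v, smul_comm z, smul_comm y, ← smul_add, ← smul_add, e, sub_self]
  obtain ⟨s, hs⟩ := (IsLocalizedModule.eq_zero_iff Sm f).mp h0
  simp only [Submonoid.smul_def] at hs
  obtain ⟨a', b', c', h1⟩ := h ((s : R) • D) ((s : R) • A) ((s : R) • B) ((s : R) • C) (by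
    linear_combination (norm := module) -hs)
  have key : ∀ m : E, ((s * w : Sm) : R) • IsLocalizedModule.mk' f m (s * w) = f m := fun m =>
    IsLocalizedModule.mk'_cancel' f m (s * w)
  refine ⟨IsLocalizedModule.mk' f a' (s * w), IsLocalizedModule.mk' f b' (s * w),
    IsLocalizedModule.mk' f c' (s * w), ?_⟩
  apply IsLocalizedModule.smul_injective f (s * w)
  simp only [Submonoid.smul_def]
  have e1 : ((s * w : Sm) : R) • n = f ((s : R) • D) := by
    rw [map_smul, ← hD, smul_smul, Submonoid.coe_mul]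
  rw [e1, h1]
  simp only [smul_add, smul_comm ((s * w : Sm) : R), key, map_add, map_smul]

include Sm f in
theorem C7.localize (h : C7 R x y u v z E) : C7 R x y u v z N := by
  intro n a b c d e
  obtain ⟨w, A, B, C, D, N', hA, hB, hC, hD, hN⟩ := common_den5 Sm f a b c d n
  have h0 : f (x • A + v • B + z • C + y • D - u • N') = 0 := by
    rw [map_sub, map_add, map_add, map_add, map_smul, map_smul, map_smul, map_smul, map_smul,
      ← hA, ← hB, ← hC, ← hD, ← hN, smul_comm x, smul_comm v, smul_comm z, smul_comm y,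
      smul_comm u, ← smul_add, ← smul_add, ← smul_add, e, sub_self]
  obtain ⟨s, hs⟩ := (IsLocalizedModule.eq_zero_iff Sm f).mp h0
  simp only [Submonoid.smul_def] at hs
  obtain ⟨a', b', c', d', h1⟩ := h ((s : R) • N') ((s : R) • A) ((s : R) • B) ((s : R) • C)
    ((s : R) • D) (by linear_combination (norm := module) -hs)
  have key : ∀ m : E, ((s * w : Sm) : R) • IsLocalizedModule.mk' f m (s * w) = f m := fun m =>
    IsLocalizedModule.mk'_cancel' f m (s * w)
  refine ⟨IsLocalizedModule.mk' f a' (s * w), IsLocalizedModule.mk' f b' (s * w),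
    IsLocalizedModule.mk' f c' (s * w), IsLocalizedModule.mk' f d' (s * w), ?_⟩
  apply IsLocalizedModule.smul_injective f (s * w)
  simp only [Submonoid.smul_def]
  have e1 : ((s * w : Sm) : R) • n = f ((s : R) • N') := by
    rw [map_smul, ← hN, smul_smul, Submonoid.coe_mul]
  rw [e1, h1]
  simp only [smul_add, smul_comm ((s * w : Sm) : R), key, map_add, map_smul]

end localize

section algebraMap

variable {T : Type*} [CommRing T] [Algebra R T] {N : Type*} [AddCommGroup N]
    [Module R N] [Module T N] [IsScalarTower R T N]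

theorem C5.algebraMap (h : C5 R x v z N) :
    C5 T (algebraMap R T x) (algebraMap R T v) (algebraMap R T z) N := by
  simpa only [C5, algebraMap_smul] using h

theorem C6.algebraMap (h : C6 R x y v z N) :
    C6 T (algebraMap R T x) (algebraMap R T y) (algebraMap R T v) (algebraMap R T z) N := by
  simpa only [C6, algebraMap_smul] using h

theorem C7.algebraMap (h : C7 R x y u v z N) :
    C7 T (algebraMap R T x) (algebraMap R T y) (algebraMap R T u) (algebraMap R T v)
      (algebraMap R T z) N := by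
  simpa only [C7, algebraMap_smul] using h

end algebraMap

end Pool.Agent.MP_2d5e52_al
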