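import Pool.Agent.MP_2d5e52_al.Good

open CategoryTheory CategoryTheory.Limits TensorProduct

namespace Pool.Agent.MP_2d5e52_al

variable {R : Type} [CommRing R] {x y u v z : R}

theorem quot_tensor_surj (z : R) (P : Type) [AddCommGroup P] [Module R P]
    (t : (R ⧸ Ideal.span {z}) ⊗[R] P) : ∃ p : P, t = (1 : R ⧸ Ideal.span {z}) ⊗ₜ[R] p := by
  induction t using TensorProduct.induction_on with
  | zero => exact ⟨0, by simp⟩
  | tmul a p =>
    obtain ⟨r, rfl⟩ := Ideal.Quotient.mk_surjective a
    refine ⟨r • p, ?_⟩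
    rw [← TensorProduct.smul_tmul]
    congr 1
    rw [Algebra.smul_def, mul_one]; rfl
  | add a b ha hb =>
    obtain ⟨p, rfl⟩ := ha
    obtain ⟨q, rfl⟩ := hb
    exact ⟨p + q, by rw [TensorProduct.tmul_add]⟩

theorem quot_tensor_eq_zero (z : R) (P : Type) [AddCommGroup P] [Module R P]
    (p : P) (h : (1 : R ⧸ Ideal.span {z}) ⊗ₜ[R] p = 0) : ∃ q : P, p = z • q := by
  have h2 := congrArg (TensorProduct.quotTensorEquivQuotSMul P (Ideal.span {z})) h
  have h3 : (TensorProduct.quotTensorEquivQuotSMul P (Ideal.span {z}))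
      ((1 : R ⧸ Ideal.span {z}) ⊗ₜ[R] p) = Submodule.Quotient.mk p := by
    have := TensorProduct.quotTensorEquivQuotSMul_mk_tmul (M := P) (Ideal.span {z}) 1 p
    rw [one_smul] at this
    exact this
  rw [h3, map_zero, Submodule.Quotient.mk_eq_zero, Submodule.ideal_span_singleton_smul] at h2
  obtain ⟨q, -, hq⟩ := h2
  exact ⟨q, hq.symm⟩

theorem quot_tensor_smul (z : R) (P : Type) [AddCommGroup P] [Module R P]
    (p : P) : (1 : R ⧸ Ideal.span {z}) ⊗ₜ[R] (z • p) = 0 := by
  rw [← TensorProduct.smul_tmul]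
  have : z • (1 : R ⧸ Ideal.span {z}) = 0 := by
    rw [Algebra.smul_def, mul_one]
    exact Ideal.Quotient.eq_zero_iff_mem.mpr (Ideal.mem_span_singleton_self z)
  rw [this, TensorProduct.zero_tmul]

/-- All images in a projective resolution of a good module are presented by good modules. -/
theorem Good.resolution_aux (hxy : x * y = u * v) (hxz : x * z = 0) (hvz : v * z = 0)
    (hR : Good R x y u v z R) {N : ModuleCat.{0} R} (hN : Good R x y u v z N)
    (P : ProjectiveResolution N) (i : ℕ) :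
    ∃ (Q : Type) (_ : AddCommGroup Q) (_ : Module R Q) (g : P.complex.X i →ₗ[R] Q),
      Function.Surjective g ∧ LinearMap.ker g = LinearMap.range (P.complex.d (i + 1) i).hom ∧
      Good R x y u v z Q := by
  induction i with
  | zero =>
    refine ⟨N, inferInstance, inferInstance, (P.π.f 0).hom, ?_, ?_, hN⟩
    · exact (ModuleCat.epi_iff_surjective _).mp inferInstance
    · have := P.exact₀
      rw [ShortComplex.moduleCat_exact_iff_range_eq_ker] at this
      exact this.symm
  | succ n ih =>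
    obtain ⟨Q, _, _, g, hg, hker, hQ⟩ := ih
    have hP : Module.Projective R (P.complex.X n) :=
      (IsProjective.iff_projective _).mpr (P.projective n)
    have hK : Good R x y u v z (LinearMap.ker g) :=
      Good.ker hxy hxz hvz (hR.of_projective _) hQ g hg
    rw [hker] at hK
    refine ⟨_, inferInstance, inferInstance, (P.complex.d (n + 1) n).hom.rangeRestrict,
      LinearMap.surjective_rangeRestrict _, ?_, hK⟩
    rw [LinearMap.ker_rangeRestrict]
    have := P.exact_succ n
    rw [ShortComplex.moduleCat_exact_iff_range_eq_ker] at this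
    exact this.symm

/-- All the higher `Tor` modules of `R ⧸ (z)` and a good module vanish. -/
theorem Good.tor_isZero (hxy : x * y = u * v) (hxz : x * z = 0) (hvz : v * z = 0)
    (hR : Good R x y u v z R) {N : ModuleCat.{0} R} (hN : Good R x y u v z N) (i : ℕ) :
    IsZero (((CategoryTheory.Tor (ModuleCat.{0} R) (i + 1)).obj
      (ModuleCat.of R (R ⧸ Ideal.span {z}))).obj N) := by
  let P := projectiveResolution N
  refine IsZero.of_iso ?_ (P.isoLeftDerivedObj _ (i + 1))
  erw [← HomologicalComplex.exactAt_iff_isZero_homology]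
  rw [HomologicalComplex.exactAt_iff' _ (i + 2) (i + 1) i (by simp) (by simp)]
  rw [ShortComplex.moduleCat_exact_iff]
  intro t ht
  obtain ⟨p, hp⟩ := quot_tensor_surj z (P.complex.X (i + 1)) t
  have h1 : (1 : R ⧸ Ideal.span {z}) ⊗ₜ[R] ((P.complex.d (i + 1) i).hom p) = 0 := by
    rw [hp] at ht
    exact ht
  obtain ⟨q, hq⟩ := quot_tensor_eq_zero z (P.complex.X i) _ h1
  obtain ⟨Q, _, _, g, hg, hker, hQ⟩ := Good.resolution_aux hxy hxz hvz hR hN P i
  obtain ⟨k, hk, hk2⟩ := hQ.ker_inter hxz hvz g hg q (by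
    rw [← hq, ← LinearMap.mem_ker, hker]; exact ⟨p, rfl⟩)
  rw [← LinearMap.mem_ker, hker] at hk
  obtain ⟨p', hp'⟩ := hk
  have h2 : (P.complex.d (i + 1) i).hom (p - z • p') = 0 := by
    rw [map_sub, map_smul, hp', hq, hk2, sub_self]
  have h3 := P.exact_succ i
  rw [ShortComplex.moduleCat_exact_iff] at h3
  obtain ⟨p'', hp''⟩ := h3 (p - z • p') h2
  refine ⟨(1 : R ⧸ Ideal.span {z}) ⊗ₜ[R] p'', ?_⟩
  have h4 : (1 : R ⧸ Ideal.span {z}) ⊗ₜ[R] ((P.complex.d (i + 2) (i + 1)).hom p'') = t := by
    have h5 : (P.complex.d (i + 2) (i + 1)).hom p'' = p - z • p' := hp''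
    rw [h5, TensorProduct.tmul_sub, quot_tensor_smul, sub_zero, ← hp]
  exact h4

end Pool.Agent.MP_2d5e52_al
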